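import Pool.Agent.LibChowla.Select

set_option autoImplicit false

namespace Pool.Agent.LibChowla

open Finset

lemma pow_odd_sign (x : ℤ) (hx : x = 1 ∨ x = -1) (k : ℕ) (hk : Odd k) : x ^ k = x := by
  obtain ⟨m, rfl⟩ := hk
  rw [pow_add, pow_mul]
  rcases hx with rfl | rfl <;> simp

lemma pow_even_sign (x : ℤ) (hx : x = 1 ∨ x = -1) (k : ℕ) (hk : Even k) : x ^ k = 1 := by
  obtain ⟨m, rfl⟩ := hk
  rw [← two_mul, pow_mul]
  rcases hx with rfl | rfl <;> simp

lemma prod_sign {ι : Type*} (S : Finset ι) (g : ι → ℤ) (hg : ∀ i ∈ S, g i = 1 ∨ g i = -1) :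
    ∏ i ∈ S, g i = 1 ∨ ∏ i ∈ S, g i = -1 := by
  classical
  induction S using Finset.induction_on with
  | empty => left; simp
  | insert a s ha ih =>
    rw [prod_insert ha]
    rcases hg a (mem_insert_self _ _) with h1 | h1 <;>
      rcases ih (fun i hi => hg i (mem_insert_of_mem hi)) with h2 | h2 <;> rw [h1, h2] <;> norm_num

/-- The relation between windows attached to a configuration of squarefree numbers. -/
lemma cube_final (f : ℕ → ℤ) (hf : ∀ n, n ≠ 0 → f n = 1 ∨ f n = -1)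
    (hmul : ∀ m n, m ≠ 0 → n ≠ 0 → f (m * n) = f m * f n)
    (a : ℕ) (ha : 0 < a) (B E : Finset ℕ) (hB : Odd B.card)
    (s : ℤ) (hs1 : s = 1 ∨ s = -1) (N : ℕ) (hN : ∀ e ∈ E, Squarefree (a * N + e))
    (hs : ∀ n : ℕ, 1 ≤ n → (∀ e ∈ E, Squarefree (a * n + e)) → ∏ b ∈ B, f (a * n + b) = s)
    (Y : ℕ) (haY : a ≤ Y) {ι : Type*} (V : Finset ι) (x y : ι → ℕ) (hV : Even V.card)
    (hsize : 8 * (V.card * E.card) ≤ Y + 1)
    (hx : ∀ v ∈ V, Squarefree (x v)) (hx1 : ∀ v ∈ V, x v ≡ 1 [MOD (Y.factorial) ^ 2])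
    (hcop : ∀ u ∈ V, ∀ v ∈ V, u ≠ v → Nat.Coprime (x u) (x v))
    (hy : ∀ v ∈ V, (Y.factorial) ^ 2 ∣ y v)
    (hinv : ∀ b ∈ B, ∃ g : ι → ι, ∀ v ∈ V, g v ∈ V ∧ g (g v) = v ∧ g v ≠ v ∧
      a * y (g v) + b * x (g v) = a * y v + b * x v) :
    ∏ v ∈ V, f (x v) = 1 := by
  classical
  set W := (Y.factorial) ^ 2 with hW
  have hWpos : 0 < W := pow_pos (Nat.factorial_pos _) 2
  have hpW : ∀ p : ℕ, p.Prime → Y < p → Nat.Coprime p W := by
    intro p hp hpY
    rw [hW]
    apply Nat.Coprime.pow_right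
    rw [Nat.Prime.coprime_iff_not_dvd hp, Nat.Prime.dvd_factorial hp]
    omega
  have hpsmall : ∀ p : ℕ, p.Prime → p ≤ Y → p ^ 2 ∣ W := by
    intro p hp hpY
    exact pow_dvd_pow_of_dvd ((Nat.Prime.dvd_factorial hp).mpr hpY) 2
  set P : Finset ℕ := V.biUnion (fun v => (x v).primeFactors) with hP
  have hPprime : ∀ p ∈ P, p.Prime := by
    intro p hp
    rw [hP, mem_biUnion] at hp
    obtain ⟨v, _, hv⟩ := hp
    exact Nat.prime_of_mem_primeFactors hv
  have hPY : ∀ p ∈ P, Y < p := by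
    intro p hp
    by_contra hcon
    push Not at hcon
    have hpp := hPprime p hp
    rw [hP, mem_biUnion] at hp
    obtain ⟨v, hvV, hv⟩ := hp
    have h1 : p ∣ x v := Nat.dvd_of_mem_primeFactors hv
    have h2 : p ∣ W := (dvd_pow_self p two_ne_zero).trans (hpsmall p hpp hcon)
    have h3 : x v ≡ 1 [MOD p] := (hx1 v hvV).of_dvd h2
    have h4 : (1 : ℕ) ≡ 0 [MOD p] := h3.symm.trans (Nat.modEq_zero_iff_dvd.mpr h1)
    have h5 : p ∣ 1 := Nat.modEq_zero_iff_dvd.mp h4
    exact hpp.one_lt.ne' (Nat.dvd_one.mp h5)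
  have hsz : ∀ p, Y < p → (V ×ˢ E).card < p := by
    intro p hp
    rw [card_product]; omega
  -- the vertex of a prime
  have hchoice : ∀ p ∈ P, ∃ r : ℕ, (∀ v ∈ V, p ∣ x v → p ∣ r + y v) ∧
      ∀ i ∈ V ×ˢ E, ¬ p ^ 2 ∣ a * (y i.1 + r) + i.2 * x i.1 := by
    intro p hp
    have hpp := hPprime p hp
    have hpY := hPY p hp
    rw [hP, mem_biUnion] at hp
    obtain ⟨v, hvV, hv⟩ := hp
    have h1 : p ∣ x v := Nat.dvd_of_mem_primeFactors hv
    obtain ⟨r, hr1, hr2⟩ := local_choice (V ×ˢ E) p a (y v) hpp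
      (fun h => by have := Nat.le_of_dvd ha h; omega) (fun i => y i.1) (fun i => i.2 * x i.1)
      (hsz p hpY)
    refine ⟨r, ?_, hr2⟩
    intro u hu hpu
    by_cases huv : u = v
    · rw [huv]; exact hr1
    · exfalso
      have h2 := Nat.dvd_gcd hpu h1
      rw [hcop u hu v hvV huv] at h2
      exact hpp.one_lt.ne' (Nat.dvd_one.mp h2)
  choose! r hr1 hr2 using hchoice
  obtain ⟨z0, hz0W, hz0P⟩ := crt_primes P hPprime W hWpos (fun p hp => hpW p (hPprime p hp) (hPY p hp))
    r N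
  set Q := ∏ p ∈ P, p ^ 2 with hQ
  obtain ⟨n, hn1, hn⟩ := exists_good (V ×ˢ E) (fun i => a * (y i.1 + z0) + i.2 * x i.1)
    (fun _ => a * (W * Q)) Y (by rw [card_product]; exact hsize) 1
  set z := z0 + W * Q * n with hz
  have hzW : z ≡ N [MOD W] := by
    rw [hz]
    have : z0 + W * Q * n ≡ z0 + 0 [MOD W] :=
      Nat.ModEq.add_left z0 (Nat.modEq_zero_iff_dvd.mpr ⟨Q * n, by ring⟩)
    exact this.trans (by simpa using hz0W)
  have hQdvd : ∀ p ∈ P, p ^ 2 ∣ Q := fun p hp => dvd_prod_of_mem _ hp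
  have hzP : ∀ p ∈ P, z ≡ r p [MOD p ^ 2] := by
    intro p hp
    rw [hz]
    have : z0 + W * Q * n ≡ z0 + 0 [MOD p ^ 2] := by
      apply Nat.ModEq.add_left z0
      apply Nat.modEq_zero_iff_dvd.mpr
      exact Dvd.dvd.mul_right (Dvd.dvd.mul_left (hQdvd p hp) W) n
    exact this.trans (by simpa using hz0P p hp)
  -- divisibility
  have hxdvd : ∀ v ∈ V, x v ∣ y v + z := by
    intro v hv
    rw [← Nat.prod_primeFactors_of_squarefree (hx v hv)]
    apply prod_primes_dvd
    · intro p hp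
      exact (Nat.prime_of_mem_primeFactors hp).prime
    · intro p hp
      have hpP : p ∈ P := by rw [hP, mem_biUnion]; exact ⟨v, hv, hp⟩
      have h1 := hr1 p hpP v hv (Nat.dvd_of_mem_primeFactors hp)
      have h2 : z ≡ r p [MOD p] := (hzP p hpP).of_dvd (dvd_pow_self p two_ne_zero)
      have h3 : y v + z ≡ y v + r p [MOD p] := Nat.ModEq.add_left _ h2
      apply Nat.modEq_zero_iff_dvd.mp
      refine h3.trans (Nat.modEq_zero_iff_dvd.mpr ?_)
      rw [add_comm]; exact h1
  set m : ι → ℕ := fun v => (y v + z) / x v with hm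
  have hmx : ∀ v ∈ V, x v * m v = y v + z := fun v hv => Nat.mul_div_cancel' (hxdvd v hv)
  have hx0 : ∀ v ∈ V, x v ≠ 0 := fun v hv => (hx v hv).ne_zero
  have hT : ∀ v ∈ V, ∀ e, x v * (a * m v + e) = a * (y v + z) + e * x v := by
    intro v hv e
    rw [← hmx v hv]; ring
  have hsqf : ∀ v ∈ V, ∀ e ∈ E, Squarefree (a * m v + e) := by
    intro v hv e he
    rw [Nat.squarefree_iff_prime_squarefree]
    intro p hp hdvd
    rw [← pow_two] at hdvd
    have hdT : p ^ 2 ∣ a * (y v + z) + e * x v := by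
      rw [← hT v hv e]; exact Dvd.dvd.mul_left hdvd _
    by_cases hpY : p ≤ Y
    · -- small primes
      have h1 : m v ≡ N [MOD W] := by
        have h2 : x v * m v ≡ 0 + N [MOD W] := by
          rw [hmx v hv]
          exact Nat.ModEq.add (Nat.modEq_zero_iff_dvd.mpr (hy v hv)) hzW
        have h3 : x v * m v ≡ 1 * m v [MOD W] := Nat.ModEq.mul_right _ (hx1 v hv)
        have h4 := h3.symm.trans h2
        simpa using h4
      have h5 : a * m v + e ≡ a * N + e [MOD p ^ 2] :=
        ((h1.of_dvd (hpsmall p hp hpY)).mul_left a).add_right e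
      have h6 : p ^ 2 ∣ a * N + e :=
        Nat.modEq_zero_iff_dvd.mp (h5.symm.trans (Nat.modEq_zero_iff_dvd.mpr hdvd))
      rw [pow_two] at h6
      exact hp.one_lt.ne' (Nat.isUnit_iff.mp (hN e he p h6))
    · push Not at hpY
      by_cases hpP : p ∈ P
      · have h1 := hr2 p hpP (v, e) (mem_product.mpr ⟨hv, he⟩)
        apply h1
        have h2 : a * (y v + z) + e * x v ≡ a * (y v + r p) + e * x v [MOD p ^ 2] :=
          ((Nat.ModEq.add_left (y v) (hzP p hpP)).mul_left a).add_right _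
        exact Nat.modEq_zero_iff_dvd.mp (h2.symm.trans (Nat.modEq_zero_iff_dvd.mpr hdT))
      · have h1 := hn (v, e) (mem_product.mpr ⟨hv, he⟩) p hp hpY (by
          apply Nat.Coprime.mul_right
          · rw [Nat.Prime.coprime_iff_not_dvd hp]
            intro h; have := Nat.le_of_dvd ha h; omega
          · apply Nat.Coprime.mul_right (hpW p hp hpY)
            rw [hQ]
            apply Nat.Coprime.prod_right
            intro q hq
            apply Nat.Coprime.pow_right
            rw [Nat.coprime_primes hp (hPprime q hq)]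
            rintro rfl
            exact hpP hq)
        apply h1
        have e1 : a * (y v + z0) + e * x v + a * (W * Q) * n = a * (y v + z) + e * x v := by
          rw [hz]; ring
        simp only
        rw [e1]; exact hdT
  -- the windows are at positive integers
  have hz1 : 1 ≤ z := by
    rw [hz]
    have hQpos : 0 < Q := prod_pos (fun p hp => pow_pos (hPprime p hp).pos 2)
    have := Nat.mul_pos (Nat.mul_pos hWpos hQpos) (show 0 < n by omega)
    omega
  have hm1 : ∀ v ∈ V, 1 ≤ m v := by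
    intro v hv
    rw [Nat.one_le_iff_ne_zero]
    intro h0
    have := hmx v hv
    rw [h0] at this
    omega
  have hne0 : ∀ v ∈ V, ∀ b, a * m v + b ≠ 0 := by
    intro v hv b
    have := Nat.mul_pos ha (show 0 < m v from hm1 v hv)
    omega
  -- product of windows
  have hwin : ∏ v ∈ V, ∏ b ∈ B, f (a * m v + b) = 1 := by
    rw [prod_congr rfl (fun v hv => hs (m v) (hm1 v hv) (hsqf v hv)), prod_const]
    exact pow_even_sign s hs1 _ hV
  have hprod : ∏ v ∈ V, ∏ b ∈ B, (f (x v) * f (a * m v + b)) = 1 := by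
    rw [Finset.prod_comm]
    apply prod_eq_one
    intro b hb
    obtain ⟨g, hg⟩ := hinv b hb
    have hval : ∀ v ∈ V, f (x v) * f (a * m v + b) = f (a * (y v + z) + b * x v) := by
      intro v hv
      rw [← hmul _ _ (hx0 v hv) (hne0 v hv b), hT v hv b]
    rw [prod_congr rfl hval]
    apply prod_involution (fun v _ => g v)
    · intro v hv
      have h1 := (hg v hv).2.2.2
      have e1 : a * (y (g v) + z) + b * x (g v) = a * (y v + z) + b * x v := by
        have : a * (y (g v) + z) + b * x (g v) = (a * y (g v) + b * x (g v)) + a * z := by ring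
        rw [this, h1]; ring
      rw [e1]
      have h0 : a * (y v + z) + b * x v ≠ 0 := by
        rw [← hT v hv b]; exact mul_ne_zero (hx0 v hv) (hne0 v hv b)
      rcases hf _ h0 with h | h <;> rw [h] <;> norm_num
    · intro v hv _
      exact (hg v hv).2.2.1
    · intro v hv
      exact (hg v hv).1
    · intro v hv
      exact (hg v hv).2.1
  have hsplit : ∏ v ∈ V, ∏ b ∈ B, (f (x v) * f (a * m v + b)) =
      (∏ v ∈ V, f (x v)) * ∏ v ∈ V, ∏ b ∈ B, f (a * m v + b) := by
    rw [← prod_mul_distrib]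
    apply prod_congr rfl
    intro v hv
    rw [prod_mul_distrib, prod_const, pow_odd_sign _ (hf _ (hx0 v hv)) _ hB]
  rw [hsplit, hwin, mul_one] at hprod
  exact hprod

end Pool.Agent.LibChowla
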