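import Pool.Agent.LibChowla.Select

set_option autoImplicit false

namespace Pool.Agent.LibChowla

open Finset

lemma one_add_coprime_small (Y m p : ℕ) (hp : p.Prime) (hpY : p ≤ Y) :
    ¬ p ∣ 1 + (Y.factorial) ^ 2 * m := by
  intro h
  have h1 : p ∣ (Y.factorial) ^ 2 * m :=
    Dvd.dvd.mul_right ((dvd_pow_self p two_ne_zero).trans
      (pow_dvd_pow_of_dvd ((Nat.Prime.dvd_factorial hp).mpr hpY) 2)) m
  have h2 : p ∣ 1 := (Nat.dvd_add_left h1).mp h
  exact hp.one_lt.ne' (Nat.dvd_one.mp h2)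

/-- Generic choice of h: the values of finitely many affine forms at h have pairwise coprime
squarefree associated numbers, coprime to finitely many given ones. -/
lemma gen (a Y : ℕ) (ha : 0 < a) (haY : a ≤ Y) (Φ : Finset (ℕ × ℕ))
    (hΦ : ∀ φ ∈ Φ, 1 ≤ φ.1 ∧ φ.1 ≤ Y) (hcard : 8 * Φ.card ≤ Y + 1) (P : Finset ℕ) :
    ∃ h : ℕ, (∀ φ ∈ Φ, Squarefree (1 + a * (Y.factorial) ^ 2 * (φ.1 * h + φ.2))) ∧
      (∀ φ ∈ Φ, ∀ ψ ∈ Φ, φ ≠ ψ → Nat.Coprime (1 + a * (Y.factorial) ^ 2 * (φ.1 * h + φ.2))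
        (1 + a * (Y.factorial) ^ 2 * (ψ.1 * h + ψ.2))) ∧
      (∀ φ ∈ Φ, ∀ p ∈ P, Nat.Coprime (1 + a * (Y.factorial) ^ 2 * (φ.1 * h + φ.2))
        (1 + a * (Y.factorial) ^ 2 * p)) := by
  classical
  set W := (Y.factorial) ^ 2 with hW
  have hWpos : 0 < W := pow_pos (Nat.factorial_pos _) 2
  have hYW : Y ≤ W := by
    rw [hW, pow_two]
    exact (Nat.self_le_factorial Y).trans (Nat.le_mul_of_pos_left _ (Nat.factorial_pos _))
  have hsmall : ∀ m p : ℕ, p.Prime → p ≤ Y → ¬ p ∣ 1 + a * W * m := by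
    intro m p hp hpY
    have := one_add_coprime_small Y (a * m) p hp hpY
    rwa [show (Y.factorial) ^ 2 * (a * m) = a * W * m by rw [hW]; ring] at this
  set det : (ℕ × ℕ) → (ℕ × ℕ) → ℤ := fun φ ψ =>
    ((ψ.1 : ℤ) - φ.1) + a * W * (ψ.1 * φ.2 - φ.1 * ψ.2) with hdet
  have hdet0 : ∀ φ ∈ Φ, ∀ ψ ∈ Φ, φ ≠ ψ → det φ ψ ≠ 0 := by
    intro φ hφ ψ hψ hne h0
    simp only [hdet] at h0
    obtain ⟨h1, h2⟩ := hΦ φ hφ
    obtain ⟨h3, h4⟩ := hΦ ψ hψ
    have h5 : ((a * W : ℕ) : ℤ) ∣ (ψ.1 : ℤ) - φ.1 := by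
      refine ⟨-((ψ.1 : ℤ) * φ.2 - φ.1 * ψ.2), ?_⟩
      push_cast
      linarith
    have h6 : (ψ.1 : ℤ) - φ.1 = 0 := by
      apply Int.eq_zero_of_abs_lt_dvd h5
      have h7 : Y ≤ a * W := hYW.trans (Nat.le_mul_of_pos_left _ ha)
      have h8 : ((Y : ℕ) : ℤ) ≤ ((a * W : ℕ) : ℤ) := by exact_mod_cast h7
      rw [abs_lt]
      constructor <;> omega
    have h7 : ψ.1 = φ.1 := by omega
    rw [h6, zero_add] at h0
    rcases mul_eq_zero.mp h0 with h8 | h8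
    · have : (a * W : ℕ) ≠ 0 := (Nat.mul_pos ha hWpos).ne'
      exact this (by exact_mod_cast h8)
    · rw [h7] at h8
      have h9 : (φ.1 : ℤ) * (φ.2 - ψ.2) = 0 := by linarith
      rcases mul_eq_zero.mp h9 with h10 | h10
      · omega
      · exact hne (Prod.ext h7.symm (by omega))
  set D : ℕ := (∏ p ∈ P, (1 + a * W * p)) *
    ∏ φψ ∈ (Φ ×ˢ Φ).filter (fun φψ => φψ.1 ≠ φψ.2), (det φψ.1 φψ.2).natAbs with hD
  have hD0 : D ≠ 0 := by
    rw [hD]
    apply mul_ne_zero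
    · rw [prod_ne_zero_iff]; intro p _; omega
    · rw [prod_ne_zero_iff]
      rintro ⟨φ, ψ⟩ h
      rw [mem_filter, mem_product] at h
      exact Int.natAbs_ne_zero.mpr (hdet0 φ h.1.1 ψ h.1.2 h.2)
  set S : Finset ℕ := D.primeFactors.filter (fun p => Y < p) with hS
  have hSprime : ∀ p ∈ S, p.Prime := fun p hp =>
    Nat.prime_of_mem_primeFactors (mem_filter.mp hp).1
  have hSY : ∀ p ∈ S, Y < p := fun p hp => (mem_filter.mp hp).2
  have hndvd : ∀ p : ℕ, p.Prime → Y < p → ∀ φ ∈ Φ, ¬ p ∣ a * W * φ.1 := by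
    intro p hp hpY φ hφ h
    rcases (Nat.Prime.dvd_mul hp).mp h with h | h
    · rcases (Nat.Prime.dvd_mul hp).mp h with h | h
      · have := Nat.le_of_dvd ha h; omega
      · rw [hW] at h
        have h1 := (Nat.Prime.dvd_factorial hp).mp (hp.dvd_of_dvd_pow h)
        omega
    · obtain ⟨h1, h2⟩ := hΦ φ hφ
      have := Nat.le_of_dvd (by omega) h; omega
  have hr : ∀ p ∈ S, ∃ z : ℕ, ∀ φ ∈ Φ, ¬ p ∣ (1 + a * W * φ.2) + (a * W * φ.1) * z := by
    intro p hp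
    apply local_avoid Φ p (hSprime p hp) (fun φ => 1 + a * W * φ.2) (fun φ => a * W * φ.1)
      (hndvd p (hSprime p hp) (hSY p hp))
    have := hSY p hp
    omega
  choose! r hr using hr
  obtain ⟨z0, _, hz0⟩ := crt_primes S hSprime 1 one_pos (fun p _ => Nat.coprime_one_right p) r 0
  set Q := ∏ p ∈ S, p with hQ
  obtain ⟨n, _, hn⟩ := exists_good Φ (fun φ => 1 + a * W * (φ.1 * z0 + φ.2))
    (fun φ => a * W * φ.1 * Q) Y hcard 0
  refine ⟨z0 + Q * n, ?_⟩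
  have hval : ∀ φ : ℕ × ℕ, 1 + a * W * (φ.1 * (z0 + Q * n) + φ.2) =
      1 + a * W * (φ.1 * z0 + φ.2) + a * W * φ.1 * Q * n := fun φ => by ring
  have hSnot : ∀ φ ∈ Φ, ∀ p ∈ S, ¬ p ∣ 1 + a * W * (φ.1 * (z0 + Q * n) + φ.2) := by
    intro φ hφ p hp h
    apply hr p hp φ hφ
    have h1 : z0 + Q * n ≡ r p [MOD p] := by
      have h2 : z0 + Q * n ≡ z0 + 0 [MOD p] := by
        apply Nat.ModEq.add_left z0
        apply Nat.modEq_zero_iff_dvd.mpr
        exact Dvd.dvd.mul_right (dvd_prod_of_mem _ hp) n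
      exact h2.trans (by simpa using (hz0 p hp).of_dvd (dvd_pow_self p two_ne_zero))
    have h3 : (1 + a * W * φ.2) + (a * W * φ.1) * (z0 + Q * n) ≡
        (1 + a * W * φ.2) + (a * W * φ.1) * r p [MOD p] :=
      (h1.mul_left _).add_left _
    apply Nat.modEq_zero_iff_dvd.mp
    refine h3.symm.trans (Nat.modEq_zero_iff_dvd.mpr ?_)
    rw [show (1 + a * W * φ.2) + (a * W * φ.1) * (z0 + Q * n) =
      1 + a * W * (φ.1 * (z0 + Q * n) + φ.2) by ring]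
    exact h
  refine ⟨?_, ?_, ?_⟩
  · intro φ hφ
    rw [Nat.squarefree_iff_prime_squarefree]
    intro p hp hdvd
    by_cases hpY : p ≤ Y
    · exact hsmall _ p hp hpY ((dvd_mul_right p p).trans hdvd)
    push Not at hpY
    by_cases hpS : p ∈ S
    · exact hSnot φ hφ p hpS ((dvd_mul_right p p).trans hdvd)
    · have h1 := hn φ hφ p hp hpY (by
        apply Nat.Coprime.mul_right
        · rw [Nat.Prime.coprime_iff_not_dvd hp]
          exact hndvd p hp hpY φ hφ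
        · rw [hQ]
          apply Nat.Coprime.prod_right
          intro q hq
          rw [Nat.coprime_primes hp (hSprime q hq)]
          rintro rfl
          exact hpS hq)
      apply h1
      have e := hval φ
      rw [← pow_two] at hdvd
      rw [← e]; exact hdvd
  · intro φ hφ ψ hψ hne
    rw [Nat.coprime_iff_gcd_eq_one]
    by_contra hg
    obtain ⟨p, hp, hpd⟩ := Nat.exists_prime_and_dvd hg
    have h1 := hpd.trans (Nat.gcd_dvd_left _ _)
    have h2 := hpd.trans (Nat.gcd_dvd_right _ _)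
    have hpY : Y < p := by
      by_contra hcon
      push Not at hcon
      exact hsmall _ p hp hcon h1
    apply hSnot φ hφ p _ h1
    rw [hS, mem_filter, Nat.mem_primeFactors]
    refine ⟨⟨hp, ?_, hD0⟩, hpY⟩
    rw [hD]
    apply Dvd.dvd.mul_left
    have h3 : p ∣ (det φ ψ).natAbs := by
      rw [← Int.natCast_dvd]
      have h4 : (p : ℤ) ∣ ((1 + a * W * (φ.1 * (z0 + Q * n) + φ.2) : ℕ) : ℤ) := by exact_mod_cast h1
      have h5 : (p : ℤ) ∣ ((1 + a * W * (ψ.1 * (z0 + Q * n) + ψ.2) : ℕ) : ℤ) := by exact_mod_cast h2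
      have h6 : (p : ℤ) ∣ (ψ.1 : ℤ) * ((1 + a * W * (φ.1 * (z0 + Q * n) + φ.2) : ℕ) : ℤ) -
          φ.1 * ((1 + a * W * (ψ.1 * (z0 + Q * n) + ψ.2) : ℕ) : ℤ) :=
        dvd_sub (Dvd.dvd.mul_left h4 _) (Dvd.dvd.mul_left h5 _)
      have h7 : (ψ.1 : ℤ) * ((1 + a * W * (φ.1 * (z0 + Q * n) + φ.2) : ℕ) : ℤ) -
          φ.1 * ((1 + a * W * (ψ.1 * (z0 + Q * n) + ψ.2) : ℕ) : ℤ) = det φ ψ := by
        simp only [hdet]
        push_cast
        ring
      rw [h7] at h6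
      exact h6
    refine h3.trans ?_
    exact dvd_prod_of_mem (fun φψ : (ℕ × ℕ) × (ℕ × ℕ) => (det φψ.1 φψ.2).natAbs)
      (show (φ, ψ) ∈ (Φ ×ˢ Φ).filter (fun φψ => φψ.1 ≠ φψ.2) from
        mem_filter.mpr ⟨mem_product.mpr ⟨hφ, hψ⟩, hne⟩)
  · intro φ hφ m hm
    rw [Nat.coprime_iff_gcd_eq_one]
    by_contra hg
    obtain ⟨p, hp, hpd⟩ := Nat.exists_prime_and_dvd hg
    have h1 := hpd.trans (Nat.gcd_dvd_left _ _)
    have h2 := hpd.trans (Nat.gcd_dvd_right _ _)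
    have hpY : Y < p := by
      by_contra hcon
      push Not at hcon
      exact hsmall _ p hp hcon h1
    apply hSnot φ hφ p _ h1
    rw [hS, mem_filter, Nat.mem_primeFactors]
    refine ⟨⟨hp, ?_, hD0⟩, hpY⟩
    rw [hD]
    apply Dvd.dvd.mul_right
    exact h2.trans (dvd_prod_of_mem (fun p => 1 + a * W * p) hm)

end Pool.Agent.LibChowla
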