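import Pool.Agent.LibChowla.Sieve

set_option autoImplicit false

namespace Pool.Agent.LibChowla

open Finset Filter

/-- sign product identity, abstract form -/
lemma prod_identity (B : Finset ℕ) (hB : Odd B.card) (u v : ℕ → ℤ) (W W' : ℕ → ℕ → ℤ)
    (hu : ∀ b ∈ B, u b = 1 ∨ u b = -1) (hv : ∀ b ∈ B, v b = 1 ∨ v b = -1)
    (h : ∀ b ∈ B, ∀ c ∈ B, v c * W c b = u b * W' b c) :
    (∏ c ∈ B, v c) * (∏ c ∈ B, ∏ b ∈ B, W c b) = (∏ b ∈ B, u b) * (∏ b ∈ B, ∏ c ∈ B, W' b c) := by
  obtain ⟨k, hk⟩ := hB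
  have hpow : ∀ x : ℤ, (x = 1 ∨ x = -1) → x ^ B.card = x := by
    intro x hx
    rw [hk, pow_add, pow_mul]
    rcases hx with rfl | rfl <;> simp
  have h1 : (∏ c ∈ B, v c) * (∏ c ∈ B, ∏ b ∈ B, W c b) = ∏ c ∈ B, ∏ b ∈ B, (v c * W c b) := by
    rw [← prod_mul_distrib]
    apply prod_congr rfl
    intro c hc
    rw [prod_mul_distrib, prod_const, hpow _ (hv c hc)]
  have h2 : (∏ b ∈ B, u b) * (∏ b ∈ B, ∏ c ∈ B, W' b c) = ∏ b ∈ B, ∏ c ∈ B, (u b * W' b c) := by
    rw [← prod_mul_distrib]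
    apply prod_congr rfl
    intro c hc
    rw [prod_mul_distrib, prod_const, hpow _ (hu c hc)]
  rw [h1, h2, Finset.prod_comm]
  apply prod_congr rfl
  intro b hb
  apply prod_congr rfl
  intro c hc
  exact h b hb c hc

/-- if a product of an even number of signs is -1, both signs occur -/
lemma both_signs {ι : Type*} (S : Finset ι) (g : ι → ℤ) (hg : ∀ i ∈ S, g i = 1 ∨ g i = -1)
    (hS : Even S.card) (hp : ∏ i ∈ S, g i = -1) (ε : ℤ) (hε : ε = 1 ∨ ε = -1) :
    ∃ i ∈ S, g i = ε := by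
  by_contra hcon
  push Not at hcon
  rcases hε with rfl | rfl
  · have h1 : ∏ i ∈ S, g i = ∏ _i ∈ S, (-1 : ℤ) := by
      apply prod_congr rfl
      intro i hi
      rcases hg i hi with h | h
      · exact absurd h (hcon i hi)
      · exact h
    rw [h1, prod_const, hS.neg_one_pow] at hp
    norm_num at hp
  · have h1 : ∏ i ∈ S, g i = ∏ _i ∈ S, (1 : ℤ) := by
      apply prod_congr rfl
      intro i hi
      rcases hg i hi with h | h
      · exact h
      · exact absurd h (hcon i hi)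
    rw [h1] at hp
    simp at hp

lemma sq_eq_one_or (x : ℤ) (h : x ^ 2 = 1) : x = 1 ∨ x = -1 := by
  have h2 : (x - 1) * (x + 1) = 0 := by ring_nf; linarith
  rcases mul_eq_zero.mp h2 with h3 | h3
  · left; linarith
  · right; linarith

lemma arith_one (T Y X : ℝ) (hT : 8 * T ≤ Y + 1) (hY : 0 < Y + 1) (hX : 0 ≤ X) :
    T * (2 * X / (Y + 1)) ≤ X / 4 := by
  rw [show T * (2 * X / (Y + 1)) = (2 * T * X) / (Y + 1) by ring, div_le_iff₀ hY]
  nlinarith

lemma arith_two (x N0 L X : ℝ) (hx : 0 ≤ x) (hL : 0 < L) (h3 : x < N0 + L * (X + 1)) (h4 : 2 * N0 + 2 * L ≤ x) :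
    x / (4 * L) ≤ X := by
  rw [div_le_iff₀ (by positivity)]
  nlinarith

lemma arith_three (x X G k L : ℝ) (hk : 0 < k) (hL : 0 < L) (hX : x / (4 * L) ≤ X)
    (h : X / 2 ≤ 2 * k * G) : 1 / (16 * k * L) * x ≤ G := by
  have h5 : x / (8 * L) ≤ 2 * k * G := by
    have : x / (8 * L) = x / (4 * L) / 2 := by field_simp; ring
    rw [this]; linarith
  have h6 : 1 / (16 * k * L) * x = x / (8 * L) / (2 * k) := by field_simp; ring
  rw [h6, div_le_iff₀ (by positivity)]
  linarith

/-- The dichotomy: f completely multiplicative with values 1 and -1, B of odd size; the sign of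
prod f(a n + b) over the n for which all a n + e are squarefree. If both signs occur once, both
occur with positive lower density. -/
theorem dichotomy (f : ℕ → ℤ) (hf : ∀ n, n ≠ 0 → f n = 1 ∨ f n = -1)
    (hmul : ∀ m n, m ≠ 0 → n ≠ 0 → f (m * n) = f m * f n)
    (a : ℕ) (ha : 0 < a) (B E : Finset ℕ) (hB : Odd B.card) (N₁ N₂ : ℕ)
    (hN₁ : ∀ b ∈ B, a * N₁ + b ≠ 0) (hN₂ : ∀ b ∈ B, a * N₂ + b ≠ 0)
    (hE₁ : ∀ e ∈ E, Squarefree (a * N₁ + e)) (hE₂ : ∀ e ∈ E, Squarefree (a * N₂ + e))
    (hne : (∏ b ∈ B, f (a * N₁ + b)) * (∏ b ∈ B, f (a * N₂ + b)) = -1) :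
    ∃ c : ℝ, 0 < c ∧ ∀ᶠ x : ℕ in atTop, ∀ ε : ℤ, (ε = 1 ∨ ε = -1) →
      c * x ≤ (((Icc 1 x).filter (fun n => (∀ e ∈ E, Squarefree (a * n + e)) ∧
        ∏ b ∈ B, f (a * n + b) = ε)).card : ℝ) := by
  classical
  set u : ℕ → ℕ := fun b => a * N₁ + b with hu
  set v : ℕ → ℕ := fun b => a * N₂ + b with hv
  set k := B.card with hk
  set T := 2 * k * E.card with hT
  set R := (∏ b ∈ B, u b) * (∏ b ∈ B, v b) with hR
  have hRpos : 0 < R := by
    apply Nat.mul_pos
    · exact prod_pos (fun b hb => Nat.pos_of_ne_zero (hN₁ b hb))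
    · exact prod_pos (fun b hb => Nat.pos_of_ne_zero (hN₂ b hb))
  set Y := a * R + 8 * T with hY
  set L := R * (Y.factorial) ^ 2 with hL
  have hLpos : 0 < L := Nat.mul_pos hRpos (pow_pos (Nat.factorial_pos _) 2)
  -- windows
  set κ : Bool → ℕ → ℕ := fun s b => if s then (R / v b) * (Y.factorial) ^ 2
    else (R / u b) * (Y.factorial) ^ 2 with hκ
  set w : Bool → ℕ → ℕ → ℕ := fun s b n => (if s then N₁ else N₂) + κ s b * n with hw
  have hvR : ∀ b ∈ B, v b ∣ R := fun b hb => Dvd.dvd.mul_left (dvd_prod_of_mem v hb) _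
  have huR : ∀ b ∈ B, u b ∣ R := fun b hb => Dvd.dvd.mul_right (dvd_prod_of_mem u hb) _
  have hκt : ∀ b ∈ B, v b * κ true b = L := by
    intro b hb
    simp only [hκ, if_true]
    rw [← mul_assoc, Nat.mul_div_cancel' (hvR b hb)]
  have hκf : ∀ b ∈ B, u b * κ false b = L := by
    intro b hb
    simp only [hκ]
    rw [if_neg (by simp), ← mul_assoc, Nat.mul_div_cancel' (huR b hb)]
  have hκpos : ∀ s, ∀ b ∈ B, 0 < κ s b := by
    intro s b hb
    cases s
    · exact Nat.pos_of_ne_zero (fun h => by have := hκf b hb; rw [h, mul_zero] at this; omega)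
    · exact Nat.pos_of_ne_zero (fun h => by have := hκt b hb; rw [h, mul_zero] at this; omega)
  have hκL : ∀ s, ∀ b ∈ B, κ s b ≤ L := by
    intro s b hb
    cases s
    · rw [← hκf b hb]; exact Nat.le_mul_of_pos_left _ (Nat.pos_of_ne_zero (hN₁ b hb))
    · rw [← hκt b hb]; exact Nat.le_mul_of_pos_left _ (Nat.pos_of_ne_zero (hN₂ b hb))
  have hκsmall : ∀ s, ∀ b ∈ B, ∀ p : ℕ, p.Prime → p ≤ Y → p ^ 2 ∣ a * κ s b := by
    intro s b hb p hp hpY
    have h1 : p ^ 2 ∣ (Y.factorial) ^ 2 := pow_dvd_pow_of_dvd ((Nat.Prime.dvd_factorial hp).mpr hpY) 2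
    have h2 : (Y.factorial) ^ 2 ∣ κ s b := by
      cases s <;> simp [hκ]
    exact Dvd.dvd.mul_left (h1.trans h2) a
  have hκbig : ∀ s, ∀ b ∈ B, ∀ p : ℕ, p.Prime → Y < p → ¬ p ∣ a * κ s b := by
    intro s b hb p hp hpY hdvd
    have h1 : κ s b ∣ L := by
      cases s
      · rw [← hκf b hb]; exact dvd_mul_left _ _
      · rw [← hκt b hb]; exact dvd_mul_left _ _
    have h2 : p ∣ a * L := hdvd.trans (Nat.mul_dvd_mul_left a h1)
    have h3 : p ∣ (a * R) * (Y.factorial) ^ 2 := by
      rw [hL, ← mul_assoc] at h2; exact h2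
    rcases (Nat.Prime.dvd_mul hp).mp h3 with h4 | h4
    · have h5 := Nat.le_of_dvd (Nat.mul_pos ha hRpos) h4
      have h6 : a * R ≤ Y := by rw [hY]; exact Nat.le_add_right _ _
      omega
    · have h5 := (Nat.Prime.dvd_factorial hp).mp (Nat.Prime.dvd_of_dvd_pow hp h4)
      omega
  -- the set of windows
  set I : Finset (Bool × ℕ) := (univ : Finset Bool) ×ˢ B with hI
  have hIcard : I.card = 2 * k := by rw [hI, card_product]; simp [hk]
  have hkpos : 0 < k := by rcases hB with ⟨m, hm⟩; omega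
  set F : ℕ → ℤ := fun m => ∏ b ∈ B, f (a * m + b) with hF
  set C := a * (N₁ + N₂) + (∑ e ∈ E, e) + a * L with hC
  -- good n
  set good : ℕ → Prop := fun n => ∀ i ∈ I, ∀ e ∈ E, Squarefree (a * w i.1 i.2 n + e) with hgood
  have hbad : ∀ X : ℕ, (((Icc 1 X).filter (fun n => ¬ good n)).card : ℝ) ≤
      T * (2 * X / (Y + 1) + (Nat.sqrt (C + C * X) + 1)) := by
    intro X
    have hsub : (Icc 1 X).filter (fun n => ¬ good n) ⊆
        (I ×ˢ E).biUnion (fun q => (Icc 1 X).filter (fun n =>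
          ¬ Squarefree ((a * (if q.1.1 then N₁ else N₂) + q.2) + (a * κ q.1.1 q.1.2) * n))) := by
      intro n hn
      rw [mem_filter] at hn
      obtain ⟨hnX, hng⟩ := hn
      simp only [hgood] at hng
      push Not at hng
      obtain ⟨i, hi, e, he, hns⟩ := hng
      rw [mem_biUnion]
      refine ⟨(i, e), mem_product.mpr ⟨hi, he⟩, ?_⟩
      rw [mem_filter]
      refine ⟨hnX, ?_⟩
      convert hns using 2
      simp only [hw]
      ring
    have h1 : (((Icc 1 X).filter (fun n => ¬ good n)).card : ℝ) ≤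
        ∑ q ∈ I ×ˢ E, (((Icc 1 X).filter (fun n =>
          ¬ Squarefree ((a * (if q.1.1 then N₁ else N₂) + q.2) + (a * κ q.1.1 q.1.2) * n))).card : ℝ) := by
      exact_mod_cast (card_le_card hsub).trans card_biUnion_le
    refine h1.trans ?_
    have h2 : ∀ q ∈ I ×ˢ E, (((Icc 1 X).filter (fun n =>
          ¬ Squarefree ((a * (if q.1.1 then N₁ else N₂) + q.2) + (a * κ q.1.1 q.1.2) * n))).card : ℝ)
          ≤ 2 * X / (Y + 1) + (Nat.sqrt (C + C * X) + 1) := by
      intro q hq
      rw [mem_product, hI, mem_product] at hq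
      obtain ⟨⟨_, hqB⟩, hqE⟩ := hq
      have hsq : Squarefree (a * (if q.1.1 then N₁ else N₂) + q.2) := by
        by_cases hb : q.1.1 = true
        · simp only [hb, if_true]; exact hE₁ _ hqE
        · simp only [hb]; exact hE₂ _ hqE
      refine (card_not_squarefree_le _ _ Y X hsq hsq.ne_zero (hκsmall _ _ hqB) (hκbig _ _ hqB)).trans ?_
      have h3 : Nat.sqrt ((a * (if q.1.1 then N₁ else N₂) + q.2) + (a * κ q.1.1 q.1.2) * X) ≤
          Nat.sqrt (C + C * X) := by
        apply Nat.sqrt_le_sqrt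
        apply Nat.add_le_add
        · have h4 : (if q.1.1 then N₁ else N₂) ≤ N₁ + N₂ := by split_ifs <;> omega
          have h5 : q.2 ≤ ∑ e ∈ E, e := single_le_sum (f := fun e => e) (fun _ _ => Nat.zero_le _) hqE
          have h6 := Nat.mul_le_mul_left a h4
          rw [hC]; omega
        · apply Nat.mul_le_mul_right
          have h7 := Nat.mul_le_mul_left a (hκL q.1.1 q.1.2 hqB)
          rw [hC]; omega
      have h4 : (Nat.sqrt ((a * (if q.1.1 then N₁ else N₂) + q.2) + (a * κ q.1.1 q.1.2) * X) : ℝ) ≤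
          (Nat.sqrt (C + C * X) : ℝ) := by exact_mod_cast h3
      linarith
    refine (sum_le_sum h2).trans ?_
    rw [sum_const, card_product, hIcard, nsmul_eq_mul, hT]
  -- windows product
  have hprod : ∀ n, 1 ≤ n → ∏ i ∈ I, F (w i.1 i.2 n) = -1 := by
    intro n hn
    have hW0 : ∀ s, ∀ c ∈ B, ∀ b ∈ B, a * w s c n + b ≠ 0 := by
      intro s c hc b hb h0
      have h1 : 0 < a * w s c n := by
        apply Nat.mul_pos ha
        simp only [hw]
        have := Nat.mul_pos (hκpos s c hc) (show 0 < n by omega)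
        omega
      omega
    have key := prod_identity B hB (fun b => f (u b)) (fun b => f (v b))
      (fun c b => f (a * w true c n + b)) (fun b c => f (a * w false b n + c))
      (fun b hb => hf _ (hN₁ b hb)) (fun b hb => hf _ (hN₂ b hb)) (by
        intro b hb c hc
        rw [← hmul _ _ (hN₂ c hc) (hW0 true c hc b hb), ← hmul _ _ (hN₁ b hb) (hW0 false b hb c hc)]
        congr 1
        have e1 : v c * (a * w true c n + b) = v c * u b + a * (v c * κ true c) * n := by
          simp only [hw, hu, if_true]; ring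
        have e2 : u b * (a * w false b n + c) = v c * u b + a * (u b * κ false b) * n := by
          simp only [hw, hv]
          rw [if_neg (by simp)]; ring
        rw [e1, e2, hκt c hc, hκf b hb])
    have hI2 : ∏ i ∈ I, F (w i.1 i.2 n) =
        (∏ c ∈ B, F (w true c n)) * (∏ b ∈ B, F (w false b n)) := by
      rw [hI, prod_product]
      simp
    rw [hI2]
    have hsq1 : (∏ b ∈ B, f (u b)) ^ 2 = 1 := by
      rw [← prod_pow]
      apply prod_eq_one
      intro b hb
      rcases hf _ (hN₁ b hb) with h | h <;> rw [h] <;> norm_num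
    have hsq2 : (∏ b ∈ B, F (w false b n)) ^ 2 = 1 := by
      rw [← prod_pow]
      apply prod_eq_one
      intro b hb
      simp only [hF]
      rw [← prod_pow]
      apply prod_eq_one
      intro c hc
      rcases hf _ (hW0 false b hb c hc) with h | h <;> rw [h] <;> norm_num
    have hsq3 : (∏ b ∈ B, f (v b)) ^ 2 = 1 := by
      rw [← prod_pow]
      apply prod_eq_one
      intro b hb
      rcases hf _ (hN₂ b hb) with h | h <;> rw [h] <;> norm_num
    simp only [hF] at hsq2 ⊢
    have hne' : (∏ b ∈ B, f (u b)) * (∏ b ∈ B, f (v b)) = -1 := hne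
    set P1 := ∏ b ∈ B, f (u b)
    set P2 := ∏ b ∈ B, f (v b)
    set Q1 := ∏ c ∈ B, ∏ b ∈ B, f (a * w true c n + b)
    set Q2 := ∏ b ∈ B, ∏ c ∈ B, f (a * w false b n + c)
    have key' : P2 * Q1 = P1 * Q2 := key
    calc Q1 * Q2 = (P2 ^ 2) * (Q1 * Q2) := by rw [hsq3]; ring
      _ = P2 * (P2 * Q1) * Q2 := by ring
      _ = P2 * (P1 * Q2) * Q2 := by rw [key']
      _ = (P1 * P2) * Q2 ^ 2 := by ring
      _ = -1 := by rw [hne', hsq2]; ring
  obtain ⟨X0, hX0⟩ := sqrt_negligible C T
  set N0 := N₁ + N₂ with hN0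
  -- lower bound for the number of good n
  have hgoodcount : ∀ X : ℕ, X0 ≤ X → (X : ℝ) / 2 ≤ (((Icc 1 X).filter good).card : ℝ) := by
    intro X hX
    have h1 := hbad X
    have h2 := hX0 X hX
    have h3 : (T : ℝ) * (2 * X / (Y + 1)) ≤ X / 4 := by
      have hTY : 8 * (T : ℝ) ≤ Y + 1 := by
        have : 8 * T ≤ Y + 1 := by rw [hY]; omega
        exact_mod_cast this
      exact arith_one _ _ _ hTY (Nat.cast_add_one_pos Y) (Nat.cast_nonneg X)
    have h4 : ((Icc 1 X).filter good).card + ((Icc 1 X).filter (fun n => ¬ good n)).card =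
        (Icc 1 X).card := card_filter_add_card_filter_not good
    rw [Nat.card_Icc] at h4
    have h5 : (((Icc 1 X).filter good).card : ℝ) + (((Icc 1 X).filter (fun n => ¬ good n)).card : ℝ) = X := by
      have : ((Icc 1 X).filter good).card + ((Icc 1 X).filter (fun n => ¬ good n)).card = X := by
        omega
      exact_mod_cast this
    have h6 : (T : ℝ) * (2 * X / (Y + 1) + (Nat.sqrt (C + C * X) + 1)) =
      T * (2 * X / (Y + 1)) + T * (Nat.sqrt (C + C * X) + 1) := by ring
    linarith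
  -- transfer to windows
  have htransfer : ∀ X : ℕ, ∀ ε : ℤ, (ε = 1 ∨ ε = -1) →
      (((Icc 1 X).filter good).card : ℝ) ≤ (2 * k) *
        (((Icc 1 (N0 + L * X)).filter (fun n => (∀ e ∈ E, Squarefree (a * n + e)) ∧
          F n = ε)).card : ℝ) := by
    intro X ε hε
    set G := (Icc 1 (N0 + L * X)).filter (fun n => (∀ e ∈ E, Squarefree (a * n + e)) ∧ F n = ε) with hG
    have hsub : (Icc 1 X).filter good ⊆ I.biUnion (fun i => (Icc 1 X).filter (fun n => w i.1 i.2 n ∈ G)) := by
      intro n hn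
      rw [mem_filter, mem_Icc] at hn
      obtain ⟨⟨hn1, hnX⟩, hng⟩ := hn
      have hsign : ∀ i ∈ I, F (w i.1 i.2 n) = 1 ∨ F (w i.1 i.2 n) = -1 := by
        intro i hi
        rw [hI, mem_product] at hi
        have h0 : ∀ b ∈ B, f (a * w i.1 i.2 n + b) = 1 ∨ f (a * w i.1 i.2 n + b) = -1 := by
          intro b hb
          apply hf
          have h1 : 0 < a * w i.1 i.2 n := by
            apply Nat.mul_pos ha
            simp only [hw]
            have := Nat.mul_pos (hκpos i.1 i.2 hi.2) (show 0 < n by omega)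
            omega
          omega
        simp only [hF]
        have h2 : (∏ b ∈ B, f (a * w i.1 i.2 n + b)) ^ 2 = 1 := by
          rw [← prod_pow]
          apply prod_eq_one
          intro b hb
          rcases h0 b hb with h | h <;> rw [h] <;> norm_num
        exact (sq_eq_one_or _ h2)
      obtain ⟨i, hi, hFi⟩ := both_signs I (fun i => F (w i.1 i.2 n)) hsign
        (by rw [hIcard]; exact even_two_mul k) (hprod n hn1) ε hε
      rw [mem_biUnion]
      refine ⟨i, hi, ?_⟩
      rw [mem_filter, mem_Icc]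
      refine ⟨⟨hn1, hnX⟩, ?_⟩
      rw [hG, mem_filter, mem_Icc]
      have hi' := hi
      rw [hI, mem_product] at hi'
      refine ⟨⟨?_, ?_⟩, ?_, hFi⟩
      · simp only [hw]
        have := Nat.mul_pos (hκpos i.1 i.2 hi'.2) (show 0 < n by omega)
        omega
      · simp only [hw]
        have h7 : κ i.1 i.2 * n ≤ L * X := Nat.mul_le_mul (hκL i.1 i.2 hi'.2) hnX
        have h8 : (if i.1 then N₁ else N₂) ≤ N0 := by split_ifs <;> omega
        omega
      · intro e he
        exact hng i hi e he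
    have h1 : ((Icc 1 X).filter good).card ≤ ∑ i ∈ I, ((Icc 1 X).filter (fun n => w i.1 i.2 n ∈ G)).card :=
      (card_le_card hsub).trans card_biUnion_le
    have h2 : ∀ i ∈ I, ((Icc 1 X).filter (fun n => w i.1 i.2 n ∈ G)).card ≤ G.card := by
      intro i hi
      rw [hI, mem_product] at hi
      apply card_le_card_of_injOn (fun n => w i.1 i.2 n)
      · intro n hn
        simp only [coe_filter, Set.mem_setOf_eq] at hn
        exact hn.2
      · intro n _ m _ hnm
        simp only [hw] at hnm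
        have h3 : κ i.1 i.2 * n = κ i.1 i.2 * m := by omega
        exact Nat.eq_of_mul_eq_mul_left (hκpos i.1 i.2 hi.2) h3
    have h3 : ((Icc 1 X).filter good).card ≤ (2 * k) * G.card := by
      refine h1.trans ((sum_le_sum h2).trans ?_)
      rw [sum_const, hIcard, smul_eq_mul]
    exact_mod_cast h3
  have hkr : (0 : ℝ) < k := by exact_mod_cast hkpos
  have hLr : (0 : ℝ) < L := by exact_mod_cast hLpos
  refine ⟨1 / (16 * k * L), one_div_pos.mpr (mul_pos (mul_pos (by norm_num) hkr) hLr), ?_⟩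
  rw [eventually_atTop]
  refine ⟨L * X0 + 2 * N0 + 2 * L + 1, ?_⟩
  intro x hx ε hε
  set X := (x - N0) / L with hX
  have hxN : N0 ≤ x := by omega
  have hXX0 : X0 ≤ X := by
    rw [hX, Nat.le_div_iff_mul_le hLpos]
    have : X0 * L = L * X0 := mul_comm _ _
    omega
  have hle : N0 + L * X ≤ x := by
    have := Nat.div_mul_le_self (x - N0) L
    rw [← hX] at this
    have h9 : X * L = L * X := mul_comm _ _
    omega
  have hXlow : (x : ℝ) / (4 * L) ≤ X := by
    have h1 : x - N0 < L * (X + 1) := by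
      rw [hX]
      have := Nat.lt_div_mul_add hLpos (a := x - N0)
      calc x - N0 < (x - N0) / L * L + L := this
        _ = L * ((x - N0) / L + 1) := by ring
    have h2 : x < N0 + L * (X + 1) := by omega
    have h3 : (x : ℝ) < N0 + L * (X + 1) := by exact_mod_cast h2
    have h4 : (2 * N0 + 2 * L : ℝ) ≤ x := by
      have : 2 * N0 + 2 * L ≤ x := by
        have : 0 ≤ L * X0 := Nat.zero_le _
        omega
      exact_mod_cast this
    have hLr : (0 : ℝ) < L := by exact_mod_cast hLpos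
    exact arith_two _ _ _ _ (Nat.cast_nonneg x) hLr h3 h4
  have h1 := hgoodcount X hXX0
  have h2 := htransfer X ε hε
  have h3 : (((Icc 1 (N0 + L * X)).filter (fun n => (∀ e ∈ E, Squarefree (a * n + e)) ∧
          F n = ε)).card : ℝ) ≤ (((Icc 1 x).filter (fun n => (∀ e ∈ E, Squarefree (a * n + e)) ∧
          F n = ε)).card : ℝ) := by
    have : (Icc 1 (N0 + L * X)) ⊆ Icc 1 x := Icc_subset_Icc_right hle
    exact_mod_cast card_le_card (filter_subset_filter _ this)
  have hkr : (0 : ℝ) < k := by exact_mod_cast hkpos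
  have hLr : (0 : ℝ) < L := by exact_mod_cast hLpos
  set G := (((Icc 1 x).filter (fun n => (∀ e ∈ E, Squarefree (a * n + e)) ∧ F n = ε)).card : ℝ)
  have h4 : (X : ℝ) / 2 ≤ 2 * k * G :=
    h1.trans (h2.trans (mul_le_mul_of_nonneg_left h3 (mul_nonneg (by norm_num) hkr.le)))
  exact arith_three _ _ _ _ _ hkr hLr hXlow h4

end Pool.Agent.LibChowla
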