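import Pool.Agent.LibChowla.Sieve

set_option autoImplicit false

namespace Pool.Agent.LibChowla

open Finset

open Classical in
/-- counting n for which the square of a large prime not dividing K divides A + K n -/
lemma card_large_le (A K Y X : ℕ) (hK : 0 < A + K) :
    (((Icc 1 X).filter (fun n => ∃ p : ℕ, p.Prime ∧ Y < p ∧ Nat.Coprime p K ∧
      p ^ 2 ∣ A + K * n)).card : ℝ) ≤ 2 * X / (Y + 1) + (Nat.sqrt (A + K * X) + 1) := by
  classical
  set Z := Nat.sqrt (A + K * X) with hZ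
  have hsub : (Icc 1 X).filter (fun n => ∃ p : ℕ, p.Prime ∧ Y < p ∧ Nat.Coprime p K ∧
      p ^ 2 ∣ A + K * n) ⊆
      ((Ioo Y (Z + 1)).filter (fun p => p.Prime ∧ Nat.Coprime p K)).biUnion
        (fun p => (Icc 1 X).filter (fun n => p ^ 2 ∣ A + K * n)) := by
    intro n hn
    rw [mem_filter] at hn
    obtain ⟨hnX, p, hp, hpY, hpK, hdvd⟩ := hn
    rw [mem_Icc] at hnX
    have hle : p ^ 2 ≤ A + K * X := by
      have h3 : 0 < A + K * n := by
        have : K ≤ K * n := Nat.le_mul_of_pos_right K (by omega)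
        omega
      refine (Nat.le_of_dvd h3 hdvd).trans ?_
      exact Nat.add_le_add_left (Nat.mul_le_mul_left K hnX.2) A
    have hpZ : p ≤ Z := by
      rw [hZ, Nat.le_sqrt, ← pow_two]; exact hle
    rw [mem_biUnion]
    refine ⟨p, ?_, ?_⟩
    · rw [mem_filter, mem_Ioo]; exact ⟨⟨hpY, by omega⟩, hp, hpK⟩
    · rw [mem_filter, mem_Icc]; exact ⟨hnX, hdvd⟩
  have h1 : (((Icc 1 X).filter (fun n => ∃ p : ℕ, p.Prime ∧ Y < p ∧ Nat.Coprime p K ∧
      p ^ 2 ∣ A + K * n)).card : ℝ) ≤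
      ∑ p ∈ (Ioo Y (Z + 1)).filter (fun p => p.Prime ∧ Nat.Coprime p K),
        ((X : ℝ) * ((p : ℝ) ^ 2)⁻¹ + 1) := by
    have h2 := (card_le_card hsub).trans card_biUnion_le
    have h3 : (((Icc 1 X).filter (fun n => ∃ p : ℕ, p.Prime ∧ Y < p ∧ Nat.Coprime p K ∧
      p ^ 2 ∣ A + K * n)).card : ℝ) ≤
        ∑ p ∈ (Ioo Y (Z + 1)).filter (fun p => p.Prime ∧ Nat.Coprime p K),
          (((Icc 1 X).filter (fun n => p ^ 2 ∣ A + K * n)).card : ℝ) := by
      exact_mod_cast h2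
    refine h3.trans (sum_le_sum ?_)
    intro p hp
    rw [mem_filter, mem_Ioo] at hp
    have hcop : Nat.Coprime (p ^ 2) K := Nat.Coprime.pow_left 2 hp.2.2
    have h4 := card_dvd_le A K (p ^ 2) X hcop
    have h5 : ((X / p ^ 2 : ℕ) : ℝ) ≤ (X : ℝ) * ((p : ℝ) ^ 2)⁻¹ := by
      have := @Nat.cast_div_le ℝ _ _ _ X (p ^ 2)
      rw [← div_eq_mul_inv]
      exact_mod_cast this
    calc ((((Icc 1 X).filter (fun n => p ^ 2 ∣ A + K * n)).card : ℕ) : ℝ)
        ≤ ((X / p ^ 2 + 1 : ℕ) : ℝ) := by exact_mod_cast h4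
      _ = ((X / p ^ 2 : ℕ) : ℝ) + 1 := by push_cast; ring
      _ ≤ _ := by linarith
  have h6 : ∑ p ∈ (Ioo Y (Z + 1)).filter (fun p => p.Prime ∧ Nat.Coprime p K),
      ((X : ℝ) * ((p : ℝ) ^ 2)⁻¹ + 1) ≤
      ∑ p ∈ Ioo Y (Z + 1), ((X : ℝ) * ((p : ℝ) ^ 2)⁻¹ + 1) := by
    apply sum_le_sum_of_subset_of_nonneg (filter_subset _ _)
    intro i _ _
    positivity
  have h7 : ∑ p ∈ Ioo Y (Z + 1), ((X : ℝ) * ((p : ℝ) ^ 2)⁻¹ + 1) ≤
      2 * X / (Y + 1) + (Z + 1) := by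
    rw [sum_add_distrib, ← mul_sum]
    have h8 : (∑ i ∈ Ioo Y (Z + 1), ((i : ℝ) ^ 2)⁻¹) ≤ 2 / (Y + 1) := sum_Ioo_inv_sq_le Y (Z + 1)
    have h9 : (X : ℝ) * ∑ i ∈ Ioo Y (Z + 1), ((i : ℝ) ^ 2)⁻¹ ≤ X * (2 / (Y + 1)) :=
      mul_le_mul_of_nonneg_left h8 (by positivity)
    have h10 : (∑ _p ∈ Ioo Y (Z + 1), (1 : ℝ)) ≤ Z + 1 := by
      rw [sum_const, Nat.card_Ioo, nsmul_eq_mul, mul_one]
      have : Z + 1 - Y - 1 ≤ Z + 1 := by omega
      exact_mod_cast this
    have h11 : (X : ℝ) * (2 / (Y + 1)) = 2 * X / (Y + 1) := by ring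
    linarith
  linarith

/-- Simultaneous avoidance of squares of large primes: there are arbitrarily large good n. -/
lemma exists_good {ι : Type*} (I : Finset ι) (A K : ι → ℕ) (Y : ℕ) (hY : 8 * I.card ≤ Y + 1)
    (X0 : ℕ) : ∃ n, X0 ≤ n ∧ ∀ i ∈ I, ∀ p : ℕ, p.Prime → Y < p → Nat.Coprime p (K i) →
      ¬ p ^ 2 ∣ A i + K i * n := by
  classical
  set T := I.card with hT
  set C := (∑ i ∈ I, A i) + ∑ i ∈ I, K i with hC
  obtain ⟨X1, hX1⟩ := sqrt_negligible C T
  set X := X1 + 4 * X0 + 4 with hX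
  have hXX : X1 ≤ X := by omega
  set bad : ℕ → Prop := fun n => ∃ i ∈ I, ∃ p : ℕ, p.Prime ∧ Y < p ∧ Nat.Coprime p (K i) ∧
      p ^ 2 ∣ A i + K i * n with hbad
  have hb : (((Icc 1 X).filter bad).card : ℝ) ≤ X / 2 := by
    have hsub : (Icc 1 X).filter bad ⊆ I.biUnion (fun i => (Icc 1 X).filter
        (fun n => ∃ p : ℕ, p.Prime ∧ Y < p ∧ Nat.Coprime p (K i) ∧ p ^ 2 ∣ A i + K i * n)) := by
      intro n hn
      rw [mem_filter] at hn
      obtain ⟨hnX, i, hi, hp⟩ := hn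
      rw [mem_biUnion]
      exact ⟨i, hi, by rw [mem_filter]; exact ⟨hnX, hp⟩⟩
    have h1 : (((Icc 1 X).filter bad).card : ℝ) ≤ ∑ i ∈ I, (((Icc 1 X).filter
        (fun n => ∃ p : ℕ, p.Prime ∧ Y < p ∧ Nat.Coprime p (K i) ∧ p ^ 2 ∣ A i + K i * n)).card : ℝ) := by
      exact_mod_cast (card_le_card hsub).trans card_biUnion_le
    have h2 : ∀ i ∈ I, (((Icc 1 X).filter (fun n => ∃ p : ℕ, p.Prime ∧ Y < p ∧
        Nat.Coprime p (K i) ∧ p ^ 2 ∣ A i + K i * n)).card : ℝ) ≤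
        2 * X / (Y + 1) + (Nat.sqrt (C + C * X) + 1) := by
      intro i hi
      by_cases hK0 : K i = 0
      · have hempty : (Icc 1 X).filter (fun n => ∃ p : ℕ, p.Prime ∧ Y < p ∧
            Nat.Coprime p (K i) ∧ p ^ 2 ∣ A i + K i * n) = ∅ := by
          rw [filter_eq_empty_iff]
          rintro n _ ⟨p, hp, _, hc, _⟩
          rw [hK0, Nat.coprime_zero_right] at hc
          exact hp.one_lt.ne' hc
        rw [hempty, card_empty]
        push_cast
        have : (0:ℝ) ≤ 2 * X / (Y + 1) := by positivity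
        have h0 : (0:ℝ) ≤ (Nat.sqrt (C + C * X) : ℝ) := Nat.cast_nonneg _
        linarith
      refine (card_large_le (A i) (K i) Y X (by omega)).trans ?_
      have hA : A i ≤ C := by
        have := single_le_sum (f := A) (fun _ _ => Nat.zero_le _) hi
        omega
      have hK : K i ≤ C := by
        have := single_le_sum (f := K) (fun _ _ => Nat.zero_le _) hi
        omega
      have h3 : Nat.sqrt (A i + K i * X) ≤ Nat.sqrt (C + C * X) :=
        Nat.sqrt_le_sqrt (Nat.add_le_add hA (Nat.mul_le_mul_right X hK))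
      have h4 : (Nat.sqrt (A i + K i * X) : ℝ) ≤ (Nat.sqrt (C + C * X) : ℝ) := by exact_mod_cast h3
      linarith
    have h3 := h1.trans (sum_le_sum h2)
    rw [sum_const, nsmul_eq_mul] at h3
    have h4 := hX1 X hXX
    have h5 : (T : ℝ) * (2 * X / (Y + 1)) ≤ X / 4 := by
      have hTY : 8 * (T : ℝ) ≤ Y + 1 := by exact_mod_cast hY
      have hY0 : (0 : ℝ) < Y + 1 := Nat.cast_add_one_pos Y
      rw [show (T : ℝ) * (2 * X / (Y + 1)) = (2 * T * X) / (Y + 1) by ring, div_le_iff₀ hY0]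
      nlinarith [Nat.cast_nonneg (α := ℝ) X]
    have h6 : (T : ℝ) * (2 * X / (Y + 1) + (Nat.sqrt (C + C * X) + 1)) =
      T * (2 * X / (Y + 1)) + T * (Nat.sqrt (C + C * X) + 1) := by ring
    linarith
  by_contra hcon
  push Not at hcon
  have hsub2 : Icc (X0 + 1) X ⊆ (Icc 1 X).filter bad := by
    intro n hn
    rw [mem_Icc] at hn
    rw [mem_filter, mem_Icc]
    refine ⟨⟨by omega, hn.2⟩, ?_⟩
    obtain ⟨i, hi, p, hp, hpY, hpK, hd⟩ := hcon n (by omega)
    exact ⟨i, hi, p, hp, hpY, hpK, hd⟩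
  have h7 := card_le_card hsub2
  rw [Nat.card_Icc] at h7
  have h8 : ((X - X0 : ℕ) : ℝ) ≤ X / 2 := by
    refine le_trans ?_ hb
    have : X - X0 ≤ ((Icc 1 X).filter bad).card := by omega
    exact_mod_cast this
  have h9 : 2 * (X - X0) ≤ X := by
    have : (2 * (X - X0 : ℕ) : ℝ) ≤ X := by linarith
    exact_mod_cast this
  omega

/-- CRT for a finite set of primes: residues modulo p ^ 2 and one more modulus W. -/
lemma crt_primes (P : Finset ℕ) (hP : ∀ p ∈ P, p.Prime) (W : ℕ) (hW : 0 < W)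
    (hcop : ∀ p ∈ P, Nat.Coprime p W) (r : ℕ → ℕ) (N : ℕ) :
    ∃ z : ℕ, z ≡ N [MOD W] ∧ ∀ p ∈ P, z ≡ r p [MOD p ^ 2] := by
  classical
  set s : ℕ → ℕ := fun i => if i = 0 then W else i ^ 2 with hs
  set t := insert 0 P with ht
  set r' : ℕ → ℕ := fun i => if i = 0 then N else r i with hr'
  have hne : ∀ i ∈ t, s i ≠ 0 := by
    intro i hi
    simp only [hs]
    split_ifs with h
    · exact hW.ne'
    · exact pow_ne_zero 2 h
  have hpp : Set.Pairwise (t : Set ℕ) (Function.onFun Nat.Coprime s) := by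
    intro i hi j hj hij
    simp only [Function.onFun, hs]
    rw [ht, coe_insert] at hi hj
    have h0 : (0 : ℕ) ∉ P := fun h => Nat.not_prime_zero (hP 0 h)
    rcases hi with rfl | hi <;> rcases hj with rfl | hj
    · exact absurd rfl hij
    · have hj0 : j ≠ 0 := fun h => h0 (by rw [← h]; exact hj)
      rw [if_pos rfl, if_neg hj0]
      exact (Nat.Coprime.pow_left 2 (hcop j hj)).symm
    · have hi0 : i ≠ 0 := fun h => h0 (by rw [← h]; exact hi)
      rw [if_neg hi0, if_pos rfl]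
      exact Nat.Coprime.pow_left 2 (hcop i hi)
    · have hi0 : i ≠ 0 := fun h => h0 (by rw [← h]; exact hi)
      have hj0 : j ≠ 0 := fun h => h0 (by rw [← h]; exact hj)
      rw [if_neg hi0, if_neg hj0]
      exact Nat.Coprime.pow 2 2 ((Nat.coprime_primes (hP i hi) (hP j hj)).mpr hij)
  obtain ⟨z, hz⟩ := Nat.chineseRemainderOfFinset r' s t hne hpp
  refine ⟨z, ?_, ?_⟩
  · have := hz 0 (mem_insert_self _ _)
    simpa [hr', hs] using this
  · intro p hp
    have h1 := hz p (mem_insert_of_mem hp)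
    have hp0 : p ≠ 0 := (hP p hp).ne_zero
    simpa [hr', hs, hp0] using h1

/-- Local choice at a prime p: a residue z modulo p ^ 2 with p | z + y0 and such that none of the
numbers a (y_i + z) + c_i is divisible by p ^ 2. -/
lemma local_choice {ι : Type*} (I : Finset ι) (p a y0 : ℕ) (hp : p.Prime) (hpa : ¬ p ∣ a)
    (y c : ι → ℕ) (hcard : I.card < p) :
    ∃ z : ℕ, p ∣ z + y0 ∧ ∀ i ∈ I, ¬ p ^ 2 ∣ a * (y i + z) + c i := by
  classical
  -- z = z1 + p ζ
  obtain ⟨z1, hz1⟩ : ∃ z1 : ℕ, p ∣ z1 + y0 := by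
    refine ⟨(p - 1) * y0, ?_⟩
    have : (p - 1) * y0 + y0 = p * y0 := by
      have hp1 := hp.one_lt
      obtain ⟨q, rfl⟩ : ∃ q, p = q + 1 := ⟨p - 1, by omega⟩
      simp; ring
    rw [this]; exact dvd_mul_right _ _
  by_contra hcon
  push Not at hcon
  have h1 : ∀ ζ ∈ range p, ∃ i ∈ I, p ^ 2 ∣ a * (y i + (z1 + p * ζ)) + c i := by
    intro ζ _
    apply hcon
    have : z1 + p * ζ + y0 = (z1 + y0) + p * ζ := by ring
    rw [this]
    exact dvd_add hz1 (dvd_mul_right _ _)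
  have hne : Nonempty ι := by
    obtain ⟨i, _, _⟩ := h1 0 (mem_range.mpr hp.pos)
    exact ⟨i⟩
  choose! g hg hdiv using h1
  have h2 : (range p).card ≤ I.card := by
    apply card_le_card_of_injOn g
    · intro ζ hζ
      exact hg ζ hζ
    · intro ζ hζ ξ hξ hgg
      have hζ' : ζ < p := by simpa using hζ
      have hξ' : ξ < p := by simpa using hξ
      have d1 := hdiv ζ hζ
      have d2 := hdiv ξ hξ
      rw [hgg] at d1
      have d3 : ((p : ℤ) ^ 2) ∣ ((a * (y (g ξ) + (z1 + p * ζ)) + c (g ξ) : ℕ) : ℤ) -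
          ((a * (y (g ξ) + (z1 + p * ξ)) + c (g ξ) : ℕ) : ℤ) := by
        apply dvd_sub
        · exact_mod_cast d1
        · exact_mod_cast d2
      have d4 : (((a * (y (g ξ) + (z1 + p * ζ)) + c (g ξ) : ℕ) : ℤ) -
          ((a * (y (g ξ) + (z1 + p * ξ)) + c (g ξ) : ℕ) : ℤ)) = p * (a * (ζ - ξ)) := by
        push_cast; ring
      rw [d4, pow_two] at d3
      have hp0 : (p : ℤ) ≠ 0 := by exact_mod_cast hp.ne_zero
      have d5 : (p : ℤ) ∣ a * (ζ - ξ) := (mul_dvd_mul_iff_left hp0).mp d3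
      have hpZ : Prime (p : ℤ) := Nat.prime_iff_prime_int.mp hp
      rcases hpZ.dvd_or_dvd d5 with d6 | d6
      · exact absurd (by exact_mod_cast d6) hpa
      · have d7 : (ζ : ℤ) - ξ = 0 := by
          apply Int.eq_zero_of_abs_lt_dvd d6
          rw [abs_lt]
          constructor
          · have : (ξ : ℤ) < p := by exact_mod_cast hξ'
            have h0 : (0 : ℤ) ≤ ζ := by positivity
            linarith
          · have : (ζ : ℤ) < p := by exact_mod_cast hζ'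
            have h0 : (0 : ℤ) ≤ ξ := by positivity
            linarith
        have : (ζ : ℤ) = ξ := by linarith
        exact_mod_cast this
  rw [card_range] at h2
  omega

/-- Choice of a residue modulo p avoiding one class for every form. -/
lemma local_avoid {ι : Type*} (I : Finset ι) (p : ℕ) (hp : p.Prime) (A K : ι → ℕ)
    (hK : ∀ i ∈ I, ¬ p ∣ K i) (hcard : I.card < p) :
    ∃ z : ℕ, ∀ i ∈ I, ¬ p ∣ A i + K i * z := by
  classical
  by_contra hcon
  push Not at hcon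
  have h1 : ∀ ζ ∈ range p, ∃ i ∈ I, p ∣ A i + K i * ζ := fun ζ _ => hcon ζ
  have hne : Nonempty ι := by
    obtain ⟨i, _, _⟩ := h1 0 (mem_range.mpr hp.pos)
    exact ⟨i⟩
  choose! g hg hdiv using h1
  have h2 : (range p).card ≤ I.card := by
    apply card_le_card_of_injOn g
    · intro ζ hζ
      exact hg ζ hζ
    · intro ζ hζ ξ hξ hgg
      have hζ' : ζ < p := by simpa using hζ
      have hξ' : ξ < p := by simpa using hξ
      have d1 := hdiv ζ hζ
      have d2 := hdiv ξ hξ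
      rw [hgg] at d1
      have h3 : A (g ξ) + K (g ξ) * ζ ≡ A (g ξ) + K (g ξ) * ξ [MOD p] :=
        (Nat.modEq_zero_iff_dvd.mpr d1).trans (Nat.modEq_zero_iff_dvd.mpr d2).symm
      have h4 : K (g ξ) * ζ ≡ K (g ξ) * ξ [MOD p] := Nat.ModEq.add_left_cancel' _ h3
      have h5 : ζ ≡ ξ [MOD p] := Nat.ModEq.cancel_left_of_coprime
        (by simpa [Nat.Coprime] using (Nat.Prime.coprime_iff_not_dvd hp).mpr (hK _ (hg ξ hξ))) h4
      have h6 : ζ % p = ξ % p := h5
      rwa [Nat.mod_eq_of_lt hζ', Nat.mod_eq_of_lt hξ'] at h6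
  rw [card_range] at h2
  omega

end Pool.Agent.LibChowla
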