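import Mathlib

set_option autoImplicit false

namespace Pool.Agent.LibChowla

open Finset

/-- the number of n in [1,X] with d dividing A + K n, for d coprime to K, is at most X / d + 1 -/
lemma card_dvd_le (A K d X : ℕ) (hK : Nat.Coprime d K) :
    ((Icc 1 X).filter (fun n => d ∣ A + K * n)).card ≤ X / d + 1 := by
  classical
  have h : ((Icc 1 X).filter (fun n => d ∣ A + K * n)).card ≤ (range (X / d + 1)).card := by
    apply card_le_card_of_injOn (fun n => n / d)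
    · intro n hn
      simp only [coe_filter, mem_Icc, Set.mem_setOf_eq] at hn
      simp only [coe_range, Set.mem_Iio]
      exact Nat.lt_succ_of_le (Nat.div_le_div_right hn.1.2)
    · intro n hn m hm hnm
      simp only [coe_filter, mem_Icc, Set.mem_setOf_eq] at hn hm
      have h1 : A + K * n ≡ A + K * m [MOD d] :=
        ((Nat.modEq_zero_iff_dvd.mpr hn.2).trans (Nat.modEq_zero_iff_dvd.mpr hm.2).symm)
      have h2 : K * n ≡ K * m [MOD d] := Nat.ModEq.add_left_cancel' A h1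
      have h3 : n ≡ m [MOD d] := Nat.ModEq.cancel_left_of_coprime (by simpa [Nat.Coprime] using hK) h2
      have h4 : n % d = m % d := h3
      have h5 : n / d = m / d := hnm
      rw [← Nat.div_add_mod n d, ← Nat.div_add_mod m d, h4, h5]
  simpa using h

/-- The number of n in [1,X] for which A + K n is not squarefree, when the small primes are
taken care of by K and the large primes do not divide K. -/
lemma card_not_squarefree_le (A K Y X : ℕ) (hA : Squarefree A) (hA0 : A ≠ 0)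
    (hsmall : ∀ p : ℕ, p.Prime → p ≤ Y → p ^ 2 ∣ K)
    (hbig : ∀ p : ℕ, p.Prime → Y < p → ¬ p ∣ K) :
    (((Icc 1 X).filter (fun n => ¬ Squarefree (A + K * n))).card : ℝ) ≤
      2 * X / (Y + 1) + (Nat.sqrt (A + K * X) + 1) := by
  classical
  set Z := Nat.sqrt (A + K * X) with hZ
  have hsub : (Icc 1 X).filter (fun n => ¬ Squarefree (A + K * n)) ⊆
      ((Ioo Y (Z + 1)).filter Nat.Prime).biUnion
        (fun p => (Icc 1 X).filter (fun n => p ^ 2 ∣ A + K * n)) := by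
    intro n hn
    rw [mem_filter] at hn
    obtain ⟨hnX, hns⟩ := hn
    rw [Nat.squarefree_iff_prime_squarefree] at hns
    push Not at hns
    obtain ⟨p, hp, hdvd⟩ := hns
    rw [← pow_two] at hdvd
    have hpY : Y < p := by
      by_contra hcon
      push Not at hcon
      have h1 : p ^ 2 ∣ K * n := Dvd.dvd.mul_right (hsmall p hp hcon) n
      have h2 : p ^ 2 ∣ A := (Nat.dvd_add_left h1).mp hdvd
      rw [pow_two] at h2
      have := hA p h2
      exact hp.one_lt.ne' (Nat.isUnit_iff.mp this)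
    rw [mem_Icc] at hnX
    have hle : p ^ 2 ≤ A + K * X := by
      have h3 : 0 < A + K * n := by omega
      refine (Nat.le_of_dvd h3 hdvd).trans ?_
      exact Nat.add_le_add_left (Nat.mul_le_mul_left K hnX.2) A
    have hpZ : p ≤ Z := by
      rw [hZ, Nat.le_sqrt, ← pow_two]; exact hle
    rw [mem_biUnion]
    refine ⟨p, ?_, ?_⟩
    · rw [mem_filter, mem_Ioo]; exact ⟨⟨hpY, by omega⟩, hp⟩
    · rw [mem_filter, mem_Icc]; exact ⟨hnX, hdvd⟩
  have h1 : (((Icc 1 X).filter (fun n => ¬ Squarefree (A + K * n))).card : ℝ) ≤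
      ∑ p ∈ (Ioo Y (Z + 1)).filter Nat.Prime, ((X : ℝ) * ((p : ℝ) ^ 2)⁻¹ + 1) := by
    have h2 := (card_le_card hsub).trans card_biUnion_le
    have h3 : (((Icc 1 X).filter (fun n => ¬ Squarefree (A + K * n))).card : ℝ) ≤
        ∑ p ∈ (Ioo Y (Z + 1)).filter Nat.Prime,
          (((Icc 1 X).filter (fun n => p ^ 2 ∣ A + K * n)).card : ℝ) := by
      exact_mod_cast h2
    refine h3.trans (sum_le_sum ?_)
    intro p hp
    rw [mem_filter, mem_Ioo] at hp
    have hcop : Nat.Coprime (p ^ 2) K :=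
      Nat.Coprime.pow_left 2 ((Nat.Prime.coprime_iff_not_dvd hp.2).mpr (hbig p hp.2 hp.1.1))
    have h4 := card_dvd_le A K (p ^ 2) X hcop
    have h5 : ((X / p ^ 2 : ℕ) : ℝ) ≤ (X : ℝ) * ((p : ℝ) ^ 2)⁻¹ := by
      have := @Nat.cast_div_le ℝ _ _ _ X (p ^ 2)
      rw [← div_eq_mul_inv]
      exact_mod_cast this
    calc ((((Icc 1 X).filter (fun n => p ^ 2 ∣ A + K * n)).card : ℕ) : ℝ)
        ≤ ((X / p ^ 2 + 1 : ℕ) : ℝ) := by exact_mod_cast h4
      _ = ((X / p ^ 2 : ℕ) : ℝ) + 1 := by push_cast; ring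
      _ ≤ _ := by linarith
  have h6 : ∑ p ∈ (Ioo Y (Z + 1)).filter Nat.Prime, ((X : ℝ) * ((p : ℝ) ^ 2)⁻¹ + 1) ≤
      ∑ p ∈ Ioo Y (Z + 1), ((X : ℝ) * ((p : ℝ) ^ 2)⁻¹ + 1) := by
    apply sum_le_sum_of_subset_of_nonneg (filter_subset _ _)
    intro i _ _
    positivity
  have h7 : ∑ p ∈ Ioo Y (Z + 1), ((X : ℝ) * ((p : ℝ) ^ 2)⁻¹ + 1) ≤
      2 * X / (Y + 1) + (Z + 1) := by
    rw [sum_add_distrib, ← mul_sum]
    have h8 : (∑ i ∈ Ioo Y (Z + 1), ((i : ℝ) ^ 2)⁻¹) ≤ 2 / (Y + 1) := sum_Ioo_inv_sq_le Y (Z + 1)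
    have h9 : (X : ℝ) * ∑ i ∈ Ioo Y (Z + 1), ((i : ℝ) ^ 2)⁻¹ ≤ X * (2 / (Y + 1)) :=
      mul_le_mul_of_nonneg_left h8 (by positivity)
    have h10 : (∑ _p ∈ Ioo Y (Z + 1), (1 : ℝ)) ≤ Z + 1 := by
      rw [sum_const, Nat.card_Ioo, nsmul_eq_mul, mul_one]
      have : Z + 1 - Y - 1 ≤ Z + 1 := by omega
      exact_mod_cast this
    have h11 : (X : ℝ) * (2 / (Y + 1)) = 2 * X / (Y + 1) := by ring
    linarith
  linarith

/-- square roots are negligible -/
lemma sqrt_negligible (C T : ℕ) : ∃ X0 : ℕ, ∀ X : ℕ, X0 ≤ X →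
    (T : ℝ) * (Nat.sqrt (C + C * X) + 1) ≤ X / 4 := by
  refine ⟨64 * T ^ 2 * (C + 1) + 8 * T + 1 + 64 * T ^ 2 * C, ?_⟩
  intro X hX
  have hs : (Nat.sqrt (C + C * X) : ℝ) ^ 2 ≤ C + C * X := by
    have := Nat.sqrt_le' (C + C * X)
    exact_mod_cast this
  have hXr : (64 * T ^ 2 * (C + 1) + 8 * T + 1 + 64 * T ^ 2 * C : ℝ) ≤ X := by exact_mod_cast hX
  set s : ℝ := (Nat.sqrt (C + C * X) : ℝ) with hsdef
  have hs0 : 0 ≤ s := by positivity
  have hT0 : (0 : ℝ) ≤ T := by positivity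
  have hC0 : (0 : ℝ) ≤ C := by positivity
  have hX1 : (1 : ℝ) ≤ X := by nlinarith [mul_nonneg (sq_nonneg (T : ℝ)) hC0, sq_nonneg (T : ℝ)]
  have h8T : 8 * (T : ℝ) ≤ X := by nlinarith [mul_nonneg (sq_nonneg (T : ℝ)) hC0, sq_nonneg (T : ℝ)]
  -- T s ≤ X / 8
  have h1 : (T * s) ^ 2 ≤ (X / 8 : ℝ) ^ 2 := by
    have h2 : (T * s) ^ 2 ≤ T ^ 2 * (C + C * X) := by
      rw [mul_pow]; exact mul_le_mul_of_nonneg_left hs (by positivity)
    have h3 : (T : ℝ) ^ 2 * (C + C * X) ≤ T ^ 2 * (2 * C * X) := by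
      apply mul_le_mul_of_nonneg_left _ (by positivity)
      nlinarith
    have h4 : 128 * (T : ℝ) ^ 2 * C ≤ X := by nlinarith [mul_nonneg (sq_nonneg (T : ℝ)) hC0, sq_nonneg (T : ℝ)]
    have h5 : (T : ℝ) ^ 2 * (2 * C * X) ≤ (X / 8 : ℝ) ^ 2 := by nlinarith
    linarith
  have h6 : T * s ≤ X / 8 := by
    apply le_of_sq_le_sq _ (by positivity)
    exact h1
  have h7 : (T : ℝ) ≤ X / 8 := by linarith
  calc (T : ℝ) * (s + 1) = T * s + T := by ring
    _ ≤ X / 8 + X / 8 := by linarith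
    _ = X / 4 := by ring

end Pool.Agent.LibChowla
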