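import Pool.Agent.LibChowla.Triv

set_option autoImplicit false

namespace Pool.Agent.LibChowla

open Finset

/-- systems of shifts on a finite set of integer points, with one involution for every b in C -/
def Sys (W : ℕ) (V : Finset ℤ) (C : Finset ℕ) : Prop :=
  ∃ y : ℤ → ℤ, (∀ v, (W : ℤ) ∣ y v) ∧ ∀ b ∈ C, ∃ f : ℤ → ℤ, ∀ v ∈ V, f v ∈ V ∧ f (f v) = v ∧
    f v ≠ v ∧ y (f v) + W * b * f v = y v + W * b * v

lemma sys_empty (W : ℕ) (V : Finset ℤ) : Sys W V ∅ :=
  ⟨fun _ => 0, fun _ => dvd_zero _, fun b hb => absurd hb (notMem_empty b)⟩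

lemma sys_step (W : ℕ) (V : Finset ℤ) (hV : V.Nonempty) (C : Finset ℕ) (h : Sys W V C) (b : ℕ)
    (g : ℤ) (hdis : Disjoint V (tr g V)) : Sys W (V ∪ tr g V) (insert b C) := by
  classical
  obtain ⟨y, hy, hC⟩ := h
  have hnot : ∀ v ∈ V, v + g ∉ V := by
    intro v hv hv'
    have := disjoint_left.mp hdis hv'
    apply this
    rw [mem_tr]; simpa using hv
  have hnot' : ∀ v ∈ V, v - g ∉ V := by
    intro v hv hv'
    have := hnot _ hv'
    apply this
    simpa using hv
  have hg : g ≠ 0 := by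
    rintro rfl
    obtain ⟨v, hv⟩ := hV
    exact hnot v hv (by simpa using hv)
  refine ⟨fun w => if w ∈ V then y w else y (w - g) - W * b * g, ?_, ?_⟩
  · intro w
    simp only
    split_ifs with h
    · exact hy w
    · exact dvd_sub (hy _) ⟨b * g, by ring⟩
  · intro c hc
    rcases mem_insert.mp hc with rfl | hc
    · refine ⟨fun w => if w ∈ V then w + g else w - g, ?_⟩
      intro w hw
      rcases mem_union.mp hw with h | h
      · have h1 := hnot w h
        have h2 : (if w ∈ V then w + g else w - g) = w + g := if_pos h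
        simp only [h2]
        refine ⟨mem_union_right _ (by rw [mem_tr]; simpa using h), ?_, ?_, ?_⟩
        · rw [if_neg h1]; ring
        · intro he; apply hg; linarith
        · rw [if_neg h1, if_pos h, show w + g - g = w by ring]; ring
      · rw [mem_tr] at h
        have h1 : w ∉ V := by
          intro h'
          exact hnot' w h' h
        have h2 : (if w ∈ V then w + g else w - g) = w - g := if_neg h1
        simp only [h2]
        refine ⟨mem_union_left _ h, ?_, ?_, ?_⟩
        · rw [if_pos h]; ring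
        · intro he; apply hg; linarith
        · rw [if_pos h, if_neg h1]; ring
    · obtain ⟨f, hf⟩ := hC c hc
      refine ⟨fun w => if w ∈ V then f w else f (w - g) + g, ?_⟩
      intro w hw
      rcases mem_union.mp hw with h | h
      · obtain ⟨f1, f2, f3, f4⟩ := hf w h
        have h2 : (if w ∈ V then f w else f (w - g) + g) = f w := if_pos h
        simp only [h2]
        refine ⟨mem_union_left _ f1, ?_, f3, ?_⟩
        · rw [if_pos f1]; exact f2
        · rw [if_pos f1, if_pos h]; exact f4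
      · rw [mem_tr] at h
        have h1 : w ∉ V := by
          intro h'
          exact hnot' w h' h
        obtain ⟨f1, f2, f3, f4⟩ := hf (w - g) h
        have h2 : (if w ∈ V then f w else f (w - g) + g) = f (w - g) + g := if_neg h1
        have h3 := hnot _ f1
        simp only [h2]
        refine ⟨mem_union_right _ (by rw [mem_tr]; simpa using f1), ?_, ?_, ?_⟩
        · rw [if_neg h3, show f (w - g) + g - g = f (w - g) by ring, f2]; ring
        · intro he; apply f3; linarith
        · rw [if_neg h3, if_neg h1, show f (w - g) + g - g = f (w - g) by ring]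
          linear_combination f4

lemma triv_of_sys (f : ℕ → ℤ) (hf : ∀ n, n ≠ 0 → f n = 1 ∨ f n = -1)
    (hmul : ∀ m n, m ≠ 0 → n ≠ 0 → f (m * n) = f m * f n)
    (a : ℕ) (ha : 0 < a) (B E : Finset ℕ) (hB : Odd B.card)
    (s : ℤ) (hs1 : s = 1 ∨ s = -1) (N : ℕ) (hN : ∀ e ∈ E, Squarefree (a * N + e))
    (hs : ∀ n : ℕ, 1 ≤ n → (∀ e ∈ E, Squarefree (a * n + e)) → ∏ b ∈ B, f (a * n + b) = s)
    (Y : ℕ) (haY : a ≤ Y) (hsize : 8 * (2 ^ B.card * E.card) ≤ Y + 1) :
    ∀ (j : ℕ) (V : Finset ℤ) (C : Finset ℕ), C ⊆ B → C.card + j = B.card →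
      V.card = 2 ^ C.card → Sys ((Y.factorial) ^ 2) V C → Triv f a Y j V := by
  classical
  set W := (Y.factorial) ^ 2 with hW
  have hWpos : 0 < W := pow_pos (Nat.factorial_pos _) 2
  intro j
  induction j with
  | zero =>
    intro V C hCB hc hVc hsys t hG
    have hCe : C = B := eq_of_subset_of_card_le hCB (by omega)
    subst hCe
    obtain ⟨y, hy, hfi⟩ := hsys
    -- shift y to be nonnegative
    obtain ⟨L, hL⟩ : ∃ L : ℤ, ∀ v ∈ V, 0 ≤ y v + W * L := by
      refine ⟨∑ v ∈ V, |y v|, ?_⟩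
      intro v hv
      have h1 : |y v| ≤ ∑ v ∈ V, |y v| := single_le_sum (f := fun v => |y v|)
        (fun _ _ => abs_nonneg _) hv
      have h2 : (1 : ℤ) ≤ W := by exact_mod_cast hWpos
      have h3 : 0 ≤ ∑ v ∈ V, |y v| := sum_nonneg (fun _ _ => abs_nonneg _)
      have h4 : ∑ v ∈ V, |y v| ≤ W * ∑ v ∈ V, |y v| := by nlinarith
      have h5 := neg_abs_le (y v)
      linarith
    have hcard2 : Even V.card := by
      rw [hVc]
      have : C.card ≠ 0 := by rintro h0; rw [h0] at hB; exact absurd hB (by decide)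
      exact (even_two).pow_of_ne_zero this
    apply cube_final f hf hmul a ha C E hB s hs1 N hN hs Y haY V (fun v => X a Y (v + t))
      (fun v => (y v + W * L).toNat) hcard2
    · rw [hVc]; exact hsize
    · intro v hv
      exact (hG.1 (v + t) (by rw [mem_tr]; simpa using hv)).2
    · intro v hv
      rw [X]
      have : 1 + a * W * (v + t).toNat ≡ 1 + 0 [MOD W] := by
        apply Nat.ModEq.add_left
        exact Nat.modEq_zero_iff_dvd.mpr ⟨a * (v + t).toNat, by ring⟩
      simpa using this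
    · intro u hu v hv huv
      apply hG.2 (u + t) (by rw [mem_tr]; simpa using hu) (v + t) (by rw [mem_tr]; simpa using hv)
      intro he; apply huv; linarith
    · intro v hv
      have h1 : (W : ℤ) ∣ y v + W * L := dvd_add (hy v) (dvd_mul_right _ _)
      have h2 : (((y v + W * L).toNat : ℕ) : ℤ) = y v + W * L := Int.toNat_of_nonneg (hL v hv)
      rw [← h2] at h1
      exact_mod_cast h1
    · intro b hb
      obtain ⟨g, hg'⟩ := hfi b hb
      refine ⟨g, ?_⟩
      intro v hv
      obtain ⟨f1, f2, f3, f4⟩ := hg' v hv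
      refine ⟨f1, f2, f3, ?_⟩
      have e1 : (((y v + W * L).toNat : ℕ) : ℤ) = y v + W * L := Int.toNat_of_nonneg (hL v hv)
      have e2 : (((y (g v) + W * L).toNat : ℕ) : ℤ) = y (g v) + W * L :=
        Int.toNat_of_nonneg (hL _ f1)
      have p1 := (hG.1 (v + t) (by rw [mem_tr]; simpa using hv)).1
      have p2 := (hG.1 (g v + t) (by rw [mem_tr]; simpa using f1)).1
      have e3 : (((v + t).toNat : ℕ) : ℤ) = v + t := Int.toNat_of_nonneg (by linarith)
      have e4 : (((g v + t).toNat : ℕ) : ℤ) = g v + t := Int.toNat_of_nonneg (by linarith)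
      have : ((a * (y (g v) + W * L).toNat + b * X a Y (g v + t) : ℕ) : ℤ) =
          ((a * (y v + W * L).toNat + b * X a Y (v + t) : ℕ) : ℤ) := by
        rw [X, X]
        push_cast [e1, e2, e3, e4]
        have hWc : (W : ℤ) = ((Y.factorial : ℕ) : ℤ) ^ 2 := by rw [hW]; push_cast; ring
        rw [← hWc]
        linear_combination (a : ℤ) * f4
      exact_mod_cast this
  | succ j ih =>
    intro V C hCB hc hVc hsys g hdis
    have hne : (B \ C).Nonempty := by
      rw [← card_pos, card_sdiff_of_subset hCB]; omega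
    obtain ⟨b, hb⟩ := hne
    rw [mem_sdiff] at hb
    have hVne : V.Nonempty := by
      rw [← card_pos, hVc]; positivity
    apply ih (V ∪ tr g V) (insert b C) (insert_subset hb.1 hCB)
    · rw [card_insert_of_notMem hb.2]; omega
    · rw [card_union_of_disjoint hdis, card_tr, card_insert_of_notMem hb.2, hVc, pow_succ]; ring
    · exact sys_step _ V hVne C hsys b g hdis

/-- For an odd number of factors the product of the values of f takes both signs on the
support, as soon as the support is nonempty. -/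
theorem no_constant_sign (f : ℕ → ℤ) (hf : ∀ n, n ≠ 0 → f n = 1 ∨ f n = -1)
    (hmul : ∀ m n, m ≠ 0 → n ≠ 0 → f (m * n) = f m * f n)
    (hneg : ∀ m : ℕ, 0 < m → ∃ q : ℕ, q.Prime ∧ q ≡ 1 [MOD m] ∧ f q = -1)
    (a : ℕ) (ha : 0 < a) (B E : Finset ℕ) (hB : Odd B.card)
    (s : ℤ) (hs1 : s = 1 ∨ s = -1) (N : ℕ) (hN : ∀ e ∈ E, Squarefree (a * N + e)) :
    ∃ n : ℕ, 1 ≤ n ∧ (∀ e ∈ E, Squarefree (a * n + e)) ∧ ∏ b ∈ B, f (a * n + b) ≠ s := by
  classical
  by_contra hcon
  push Not at hcon
  set k := B.card with hk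
  set Y := a + 8 * (3 * 2 ^ k) + 8 * (2 ^ k * E.card) with hY
  set W := (Y.factorial) ^ 2 with hW
  have hWpos : 0 < W := pow_pos (Nat.factorial_pos _) 2
  have hpk : 0 < 2 ^ k := by positivity
  have haY : a ≤ Y := by omega
  have hY1 : 2 ^ k ≤ Y := by omega
  have hY2 : 8 * (3 * 2 ^ k) ≤ Y + 1 := by omega
  have hY3 : 8 * (2 ^ B.card * E.card) ≤ Y + 1 := by rw [← hk]; omega
  have hT : Triv f a Y k {0} := triv_of_sys f hf hmul a ha B E hB s hs1 N hN hcon Y haY hY3 k {0} ∅
    (empty_subset _) (by simp [hk]) (by simp) (sys_empty _ _)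
  have hper := per f hf a Y k ha haY hY1 hY2 k {0} hT (by simp)
  have hpos : 0 < a * W * 2 ^ k := Nat.mul_pos (Nat.mul_pos ha hWpos) hpk
  -- good numbers congruent to 1
  have key : ∀ x : ℕ, 1 < x → Squarefree x → ∀ m : ℕ, x = 1 + a * W * (2 ^ k * m) →
      G a Y (tr ((2 ^ k * m : ℕ) : ℤ) {0}) ∧ fv f a Y ((2 ^ k * m : ℕ) : ℤ) = f x := by
    intro x hx1 hxs m hxm
    have hm0 : 0 < 2 ^ k * m := by
      rcases Nat.eq_zero_or_pos (2 ^ k * m) with h | h
      · rw [h] at hxm; omega
      · exact h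
    have hX : X a Y ((2 ^ k * m : ℕ) : ℤ) = x := by rw [X, Int.toNat_natCast, hxm]
    have e : tr ((2 ^ k * m : ℕ) : ℤ) {0} = {((2 ^ k * m : ℕ) : ℤ)} := by
      ext w; rw [mem_tr, mem_singleton, mem_singleton]; omega
    refine ⟨?_, by rw [fv, hX]⟩
    rw [e]
    refine ⟨?_, ?_⟩
    · intro w hw
      rw [mem_singleton] at hw
      rw [hw]
      exact ⟨by exact_mod_cast hm0, by rw [hX]; exact hxs⟩
    · intro w hw w' hw' hne
      rw [mem_singleton] at hw hw'
      exact absurd (hw.trans hw'.symm) hne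
  have key2 : ∀ x x' : ℕ, 1 < x → 1 < x' → Squarefree x → Squarefree x' → ∀ m m' : ℕ,
      x = 1 + a * W * (2 ^ k * m) → x' = 1 + a * W * (2 ^ k * m') → f x = f x' := by
    intro x x' hx hx' hxs hxs' m m' hm hm'
    obtain ⟨g1, e1⟩ := key x hx hxs m hm
    obtain ⟨g2, e2⟩ := key x' hx' hxs' m' hm'
    have h := hper ((2 ^ k * m : ℕ) : ℤ) ((2 ^ k * m' : ℕ) : ℤ) (by
      refine ⟨(m' : ℤ) - m, ?_⟩
      push_cast; ring) g1 g2
    rw [prod_singleton, prod_singleton, zero_add, zero_add, e1, e2] at h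
    exact h
  obtain ⟨q, hq, hqm, hfq⟩ := hneg (a * W * 2 ^ k) hpos
  obtain ⟨q', hq', hq'1, hqm'⟩ := Nat.exists_prime_gt_modEq_one (k := a * W * 2 ^ k) q hpos.ne'
  obtain ⟨m, hm⟩ := (Nat.modEq_iff_dvd' hq.one_lt.le).mp hqm.symm
  obtain ⟨m', hm'⟩ := (Nat.modEq_iff_dvd' hq'.one_lt.le).mp hqm'.symm
  have hqe : q = 1 + a * W * (2 ^ k * m) := by
    have := hq.one_lt
    rw [← mul_assoc, ← hm]; omega
  have hqe' : q' = 1 + a * W * (2 ^ k * m') := by
    have := hq'.one_lt
    rw [← mul_assoc, ← hm']; omega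
  have hqq' : q ≠ q' := by omega
  have h1 : f q = f q' := key2 q q' hq.one_lt hq'.one_lt hq.squarefree hq'.squarefree m m' hqe hqe'
  have h2 : f q = f (q * q') := by
    apply key2 q (q * q') hq.one_lt _ hq.squarefree _ m (m + m' + a * W * (2 ^ k * (m * m'))) hqe
    · rw [hqe, hqe']; ring
    · exact lt_of_lt_of_le hq.one_lt (Nat.le_mul_of_pos_right _ hq'.pos)
    · rw [Nat.squarefree_mul ((Nat.coprime_primes hq hq').mpr hqq')]
      exact ⟨hq.squarefree, hq'.squarefree⟩
  rw [hmul q q' hq.ne_zero hq'.ne_zero, ← h1, hfq] at h2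
  norm_num at h2

end Pool.Agent.LibChowla
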