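import Pool.Agent.LibChowla.Gen
import Pool.Agent.LibChowla.Cube

set_option autoImplicit false

namespace Pool.Agent.LibChowla

open Finset

/-- the number attached to an integer point -/
def X (a Y : ℕ) (τ : ℤ) : ℕ := 1 + a * (Y.factorial) ^ 2 * τ.toNat

/-- translate of a finite set of integers -/
def tr (g : ℤ) (V : Finset ℤ) : Finset ℤ := V.image (fun v => v + g)

lemma mem_tr (g : ℤ) (V : Finset ℤ) (w : ℤ) : w ∈ tr g V ↔ w - g ∈ V := by
  rw [tr, mem_image]
  constructor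
  · rintro ⟨v, hv, rfl⟩; simpa using hv
  · intro h; exact ⟨w - g, h, by ring⟩

lemma card_tr (g : ℤ) (V : Finset ℤ) : (tr g V).card = V.card :=
  card_image_of_injective _ (add_left_injective g)

lemma prod_tr (g : ℤ) (V : Finset ℤ) (f : ℤ → ℤ) : ∏ v ∈ tr g V, f v = ∏ v ∈ V, f (v + g) := by
  rw [tr, prod_image (fun x _ y _ h => add_left_injective g h)]

/-- good finite sets of integer points -/
def G (a Y : ℕ) (S : Finset ℤ) : Prop :=
  (∀ τ ∈ S, 1 ≤ τ ∧ Squarefree (X a Y τ)) ∧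
    ∀ τ ∈ S, ∀ σ ∈ S, τ ≠ σ → Nat.Coprime (X a Y τ) (X a Y σ)

/-- two finite sets with coprime attached numbers -/
def Cr (a Y : ℕ) (S T : Finset ℤ) : Prop :=
  ∀ τ ∈ S, ∀ σ ∈ T, Nat.Coprime (X a Y τ) (X a Y σ)

lemma G_union {a Y : ℕ} {S T : Finset ℤ} (hS : G a Y S) (hT : G a Y T) (h : Cr a Y S T) :
    G a Y (S ∪ T) := by
  refine ⟨?_, ?_⟩
  · intro τ hτ
    rcases mem_union.mp hτ with h1 | h1
    · exact hS.1 τ h1
    · exact hT.1 τ h1
  · intro τ hτ σ hσ hne
    rcases mem_union.mp hτ with h1 | h1 <;> rcases mem_union.mp hσ with h2 | h2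
    · exact hS.2 τ h1 σ h2 hne
    · exact h τ h1 σ h2
    · exact (h σ h2 τ h1).symm
    · exact hT.2 τ h1 σ h2 hne

lemma X_gt {a Y : ℕ} (ha : 0 < a) {τ : ℤ} (hτ : 1 ≤ τ) : 1 < X a Y τ := by
  rw [X]
  have h1 : 0 < (Y.factorial) ^ 2 := pow_pos (Nat.factorial_pos _) 2
  have h2 : 0 < τ.toNat := by omega
  have : 0 < a * (Y.factorial) ^ 2 * τ.toNat := Nat.mul_pos (Nat.mul_pos ha h1) h2
  omega

/-- f on integer points -/
def fv (f : ℕ → ℤ) (a Y : ℕ) (τ : ℤ) : ℤ := f (X a Y τ)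

lemma X_ne_zero (a Y : ℕ) (τ : ℤ) : X a Y τ ≠ 0 := by rw [X]; omega

lemma fv_sign (f : ℕ → ℤ) (hf : ∀ n, n ≠ 0 → f n = 1 ∨ f n = -1) (a Y : ℕ) (τ : ℤ) :
    fv f a Y τ = 1 ∨ fv f a Y τ = -1 := hf _ (X_ne_zero a Y τ)

/-- the recursive property -/
def Triv (f : ℕ → ℤ) (a Y : ℕ) : ℕ → Finset ℤ → Prop
  | 0, V => ∀ t : ℤ, G a Y (tr t V) → ∏ v ∈ V, fv f a Y (v + t) = 1
  | (j + 1), V => ∀ g : ℤ, Disjoint V (tr g V) → Triv f a Y j (V ∪ tr g V)

lemma tr_tr (g t : ℤ) (V : Finset ℤ) : tr t (tr g V) = tr (t + g) V := by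
  ext w
  simp only [mem_tr]
  rw [sub_sub, add_comm]

lemma tr_union (t : ℤ) (V U : Finset ℤ) : tr t (V ∪ U) = tr t V ∪ tr t U := by
  rw [tr, tr, tr, image_union]

lemma sign_cancel {x y z : ℤ} (hx : x = 1 ∨ x = -1) (h : x * y = x * z) : y = z := by
  rcases hx with rfl | rfl <;> linarith

lemma two_step (f : ℕ → ℤ) (a Y : ℕ) (ha : 0 < a) (j : ℕ) (V : Finset ℤ)
    (hT : Triv f a Y (j + 1) V)
    (ih : ∀ U : Finset ℤ, Triv f a Y j U → U.card ≤ 2 * V.card →
      ∀ t t' : ℤ, (2 ^ j : ℤ) ∣ t' - t → G a Y (tr t U) → G a Y (tr t' U) →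
      ∏ v ∈ U, fv f a Y (v + t) = ∏ v ∈ U, fv f a Y (v + t'))
    (s s' u u' : ℤ) (hg : s' - s = u' - u) (hd : (2 ^ j : ℤ) ∣ u - s)
    (h1 : G a Y (tr s V)) (h2 : G a Y (tr s' V)) (h3 : G a Y (tr u V)) (h4 : G a Y (tr u' V))
    (c1 : Cr a Y (tr s V) (tr s' V)) (c2 : Cr a Y (tr u V) (tr u' V)) :
    (∏ v ∈ V, fv f a Y (v + s)) * ∏ v ∈ V, fv f a Y (v + s') =
      (∏ v ∈ V, fv f a Y (v + u)) * ∏ v ∈ V, fv f a Y (v + u') := by
  have hdis : Disjoint V (tr (s' - s) V) := by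
    rw [disjoint_left]
    intro w hw hw'
    rw [mem_tr] at hw'
    have e1 : w + s ∈ tr s V := by rw [mem_tr]; simpa using hw
    have e2 : w + s ∈ tr s' V := by
      rw [mem_tr]
      rw [show w + s - s' = w - (s' - s) by ring]; exact hw'
    have e3 := c1 _ e1 _ e2
    have e4 := X_gt (Y := Y) ha (h1.1 _ e1).1
    rw [Nat.coprime_self] at e3
    omega
  have hU := hT (s' - s) hdis
  have e1 : tr s (V ∪ tr (s' - s) V) = tr s V ∪ tr s' V := by
    rw [tr_union, tr_tr]; congr 2; ring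
  have e2 : tr u (V ∪ tr (s' - s) V) = tr u V ∪ tr u' V := by
    rw [tr_union, tr_tr]
    rw [hg]; congr 2; ring
  have h5 := ih _ hU (by
    refine (card_union_le _ _).trans ?_
    rw [card_tr]; omega) s u hd (by rw [e1]; exact G_union h1 h2 c1)
    (by rw [e2]; exact G_union h3 h4 c2)
  rw [prod_union hdis, prod_union hdis, prod_tr, prod_tr] at h5
  have e3 : ∀ v, v + (s' - s) + s = v + s' := fun v => by ring
  have e4 : ∀ v, v + (s' - s) + u = v + u' := fun v => by rw [hg]; ring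
  simp only [e3, e4] at h5
  exact h5

/-- Periodicity from triviality. -/
lemma per (f : ℕ → ℤ) (hf : ∀ n, n ≠ 0 → f n = 1 ∨ f n = -1) (a Y k : ℕ) (ha : 0 < a) (haY : a ≤ Y) (hY1 : 2 ^ k ≤ Y) (hY2 : 8 * (3 * 2 ^ k) ≤ Y + 1) :
    ∀ (j : ℕ) (V : Finset ℤ), Triv f a Y j V → V.card * 2 ^ j ≤ 2 ^ k →
      ∀ t t' : ℤ, (2 ^ j : ℤ) ∣ t' - t → G a Y (tr t V) → G a Y (tr t' V) →
      ∏ v ∈ V, fv f a Y (v + t) = ∏ v ∈ V, fv f a Y (v + t') := by
  classical
  intro j
  induction j with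
  | zero =>
    intro V hV _ t t' _ h1 h2
    rw [hV t h1, hV t' h2]
  | succ j ihj =>
    intro V hV hcard t t' hd h0 h4
    by_cases hVe : V = ∅
    · rw [hVe]; simp
    have hVpos : 0 < V.card := card_pos.mpr (nonempty_iff_ne_empty.mpr hVe)
    have hpow : 2 ^ (j + 1) ≤ 2 ^ k := le_trans (Nat.le_mul_of_pos_left _ hVpos) hcard
    have hVk : V.card ≤ 2 ^ k := le_trans (Nat.le_mul_of_pos_right _ (by positivity)) hcard
    obtain ⟨M0, hM0⟩ := hd
    set M : ℤ := 2 ^ j * M0 with hM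
    have ht' : t' = t + 2 * M := by
      rw [hM]; rw [pow_succ] at hM0; linarith
    -- forms
    set Φ : Finset (ℕ × ℕ) := V.image (fun v => (2 ^ j, (v + t).toNat)) ∪
      V.image (fun v => (2 ^ (j + 1), (v + t).toNat)) ∪
      V.image (fun v => (2 ^ j, (v + (t + M)).toNat)) with hΦ
    have hΦcard : Φ.card ≤ 3 * 2 ^ k := by
      rw [hΦ]
      have e1 := card_union_le (V.image (fun v => ((2 ^ j, (v + t).toNat) : ℕ × ℕ)) ∪
        V.image (fun v => (2 ^ (j + 1), (v + t).toNat)))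
        (V.image (fun v => (2 ^ j, (v + (t + M)).toNat)))
      have e2 := card_union_le (V.image (fun v => ((2 ^ j, (v + t).toNat) : ℕ × ℕ)))
        (V.image (fun v => (2 ^ (j + 1), (v + t).toNat)))
      have e3 : (V.image (fun v => ((2 ^ j, (v + t).toNat) : ℕ × ℕ))).card ≤ V.card := card_image_le
      have e4 : (V.image (fun v => ((2 ^ (j + 1), (v + t).toNat) : ℕ × ℕ))).card ≤ V.card :=
        card_image_le
      have e5 : (V.image (fun v => ((2 ^ j, (v + (t + M)).toNat) : ℕ × ℕ))).card ≤ V.card :=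
        card_image_le
      omega
    have hpos : 0 < 2 ^ j := by positivity
    have hpos' : 0 < 2 ^ (j + 1) := by positivity
    have hle : 2 ^ j ≤ 2 ^ (j + 1) := Nat.pow_le_pow_right (by norm_num) (by omega)
    have hΦ1 : ∀ φ ∈ Φ, 1 ≤ φ.1 ∧ φ.1 ≤ Y := by
      intro φ hφ
      rw [hΦ, mem_union, mem_union, mem_image, mem_image, mem_image] at hφ
      rcases hφ with (⟨v, _, rfl⟩ | ⟨v, _, rfl⟩) | ⟨v, _, rfl⟩ <;> simp only <;> omega
    obtain ⟨h, hh1, hh2, hh3⟩ := gen a Y ha haY Φ hΦ1 (by omega) ((tr t V ∪ tr t' V).image Int.toNat)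
    set M' : ℤ := 2 ^ j * h with hM'
    have hp1 : ∀ v ∈ V, 1 ≤ v + t := fun v hv => (h0.1 (v + t) (by rw [mem_tr]; simpa using hv)).1
    have hp4 : ∀ v ∈ V, 1 ≤ v + t' := fun v hv => (h4.1 (v + t') (by rw [mem_tr]; simpa using hv)).1
    have hpm : ∀ v ∈ V, 1 ≤ v + (t + M) := by
      intro v hv
      have := hp1 v hv
      have := hp4 v hv
      rw [ht'] at this
      linarith
    have hM'0 : 0 ≤ M' := by positivity
    -- values of the forms
    have v1 : ∀ v ∈ V, X a Y (v + (t + M')) =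
        1 + a * (Y.factorial) ^ 2 * (2 ^ j * h + (v + t).toNat) := by
      intro v hv
      have e : (v + (t + M')).toNat = 2 ^ j * h + (v + t).toNat := by
        have := hp1 v hv
        zify
        rw [Int.toNat_of_nonneg (by linarith), Int.toNat_of_nonneg (by linarith), hM']
        ring
      rw [X, e]
    have v2 : ∀ v ∈ V, X a Y (v + (t + 2 * M')) =
        1 + a * (Y.factorial) ^ 2 * (2 ^ (j + 1) * h + (v + t).toNat) := by
      intro v hv
      have e : (v + (t + 2 * M')).toNat = 2 ^ (j + 1) * h + (v + t).toNat := by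
        have := hp1 v hv
        zify
        rw [Int.toNat_of_nonneg (by linarith), Int.toNat_of_nonneg (by linarith), hM']
        ring
      rw [X, e]
    have v3 : ∀ v ∈ V, X a Y (v + (t + M + M')) =
        1 + a * (Y.factorial) ^ 2 * (2 ^ j * h + (v + (t + M)).toNat) := by
      intro v hv
      have e : (v + (t + M + M')).toNat = 2 ^ j * h + (v + (t + M)).toNat := by
        have := hpm v hv
        zify
        rw [Int.toNat_of_nonneg (by linarith), Int.toNat_of_nonneg (by linarith), hM']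
        ring
      rw [X, e]
    have m1 : ∀ v ∈ V, ((2 ^ j, (v + t).toNat) : ℕ × ℕ) ∈ Φ := by
      intro v hv
      rw [hΦ, mem_union, mem_union]
      left; left; exact mem_image_of_mem _ hv
    have m2 : ∀ v ∈ V, ((2 ^ (j + 1), (v + t).toNat) : ℕ × ℕ) ∈ Φ := by
      intro v hv
      rw [hΦ, mem_union, mem_union]
      left; right; exact mem_image_of_mem (fun v => ((2 ^ (j + 1), (v + t).toNat) : ℕ × ℕ)) hv
    have m3 : ∀ v ∈ V, ((2 ^ j, (v + (t + M)).toNat) : ℕ × ℕ) ∈ Φ := by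
      intro v hv
      rw [hΦ, mem_union]
      right; exact mem_image_of_mem (fun v => ((2 ^ j, (v + (t + M)).toNat) : ℕ × ℕ)) hv
    have mem' : ∀ (s w : ℤ), w ∈ tr s V → ∃ v ∈ V, w = v + s := by
      intro s w hw
      rw [mem_tr] at hw
      exact ⟨w - s, hw, by ring⟩
    have g1 : G a Y (tr (t + M') V) := by
      refine ⟨?_, ?_⟩
      · intro w hw
        obtain ⟨v, hv, rfl⟩ := mem' _ _ hw
        refine ⟨by have := hp1 v hv; linarith, ?_⟩
        rw [v1 v hv]; exact hh1 _ (m1 v hv)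
      · intro w hw w' hw' hne
        obtain ⟨v, hv, rfl⟩ := mem' _ _ hw
        obtain ⟨v', hv', rfl⟩ := mem' _ _ hw'
        rw [v1 v hv, v1 v' hv']
        apply hh2 _ (m1 v hv) _ (m1 v' hv')
        intro he
        have e2 := congrArg Prod.snd he
        simp only at e2
        have := hp1 v hv
        have := hp1 v' hv'
        apply hne
        omega
    have g2 : G a Y (tr (t + 2 * M') V) := by
      refine ⟨?_, ?_⟩
      · intro w hw
        obtain ⟨v, hv, rfl⟩ := mem' _ _ hw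
        refine ⟨by have := hp1 v hv; linarith, ?_⟩
        rw [v2 v hv]; exact hh1 _ (m2 v hv)
      · intro w hw w' hw' hne
        obtain ⟨v, hv, rfl⟩ := mem' _ _ hw
        obtain ⟨v', hv', rfl⟩ := mem' _ _ hw'
        rw [v2 v hv, v2 v' hv']
        apply hh2 _ (m2 v hv) _ (m2 v' hv')
        intro he
        have e2 := congrArg Prod.snd he
        simp only at e2
        have := hp1 v hv
        have := hp1 v' hv'
        apply hne
        omega
    have g3 : G a Y (tr (t + M + M') V) := by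
      refine ⟨?_, ?_⟩
      · intro w hw
        obtain ⟨v, hv, rfl⟩ := mem' _ _ hw
        refine ⟨by have := hpm v hv; linarith, ?_⟩
        rw [v3 v hv]; exact hh1 _ (m3 v hv)
      · intro w hw w' hw' hne
        obtain ⟨v, hv, rfl⟩ := mem' _ _ hw
        obtain ⟨v', hv', rfl⟩ := mem' _ _ hw'
        rw [v3 v hv, v3 v' hv']
        apply hh2 _ (m3 v hv) _ (m3 v' hv')
        intro he
        have e2 := congrArg Prod.snd he
        simp only at e2
        have := hpm v hv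
        have := hpm v' hv'
        apply hne
        omega
    have hne2 : (2 : ℕ) ^ j ≠ 2 ^ (j + 1) := by rw [pow_succ]; omega
    have c01 : Cr a Y (tr t V) (tr (t + M') V) := by
      intro w hw w' hw'
      obtain ⟨v', hv', rfl⟩ := mem' _ _ hw'
      rw [v1 v' hv']
      apply Nat.Coprime.symm
      apply hh3 _ (m1 v' hv')
      exact mem_image_of_mem _ (mem_union_left _ hw)
    have c12 : Cr a Y (tr (t + M') V) (tr (t + 2 * M') V) := by
      intro w hw w' hw'
      obtain ⟨v, hv, rfl⟩ := mem' _ _ hw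
      obtain ⟨v', hv', rfl⟩ := mem' _ _ hw'
      rw [v1 v hv, v2 v' hv']
      apply hh2 _ (m1 v hv) _ (m2 v' hv')
      intro he
      exact hne2 (congrArg Prod.fst he)
    have c23 : Cr a Y (tr (t + 2 * M') V) (tr (t + M + M') V) := by
      intro w hw w' hw'
      obtain ⟨v, hv, rfl⟩ := mem' _ _ hw
      obtain ⟨v', hv', rfl⟩ := mem' _ _ hw'
      rw [v2 v hv, v3 v' hv']
      apply hh2 _ (m2 v hv) _ (m3 v' hv')
      intro he
      exact hne2 (congrArg Prod.fst he).symm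
    have c34 : Cr a Y (tr (t + M + M') V) (tr t' V) := by
      intro w hw w' hw'
      obtain ⟨v, hv, rfl⟩ := mem' _ _ hw
      rw [v3 v hv]
      apply hh3 _ (m3 v hv)
      exact mem_image_of_mem _ (mem_union_right _ hw')
    have ih' : ∀ U : Finset ℤ, Triv f a Y j U → U.card ≤ 2 * V.card →
      ∀ t t' : ℤ, (2 ^ j : ℤ) ∣ t' - t → G a Y (tr t U) → G a Y (tr t' U) →
      ∏ v ∈ U, fv f a Y (v + t) = ∏ v ∈ U, fv f a Y (v + t') := by
      intro U hU hUc
      apply ihj U hU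
      calc U.card * 2 ^ j ≤ (2 * V.card) * 2 ^ j := Nat.mul_le_mul_right _ hUc
        _ = V.card * 2 ^ (j + 1) := by rw [pow_succ]; ring
        _ ≤ _ := hcard
    have s1 := two_step f a Y ha j V hV ih' t (t + M') (t + M') (t + 2 * M') (by ring)
      ⟨h, by rw [hM']; ring⟩ h0 g1 g1 g2 c01 c12
    have s2 := two_step f a Y ha j V hV ih' (t + 2 * M') (t + M + M') (t + M + M') t'
      (by rw [ht']; ring) ⟨M0 - h, by rw [hM', hM]; ring⟩ g2 g3 g3 h4 c23 c34
    have sg : ∀ s : ℤ, (∏ v ∈ V, fv f a Y (v + s)) = 1 ∨ (∏ v ∈ V, fv f a Y (v + s)) = -1 :=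
      fun s => prod_sign V _ (fun v _ => fv_sign f hf a Y _)
    have r1 : (∏ v ∈ V, fv f a Y (v + t)) = ∏ v ∈ V, fv f a Y (v + (t + 2 * M')) := by
      apply sign_cancel (sg (t + M'))
      rw [mul_comm]; exact s1
    have r2 : (∏ v ∈ V, fv f a Y (v + (t + 2 * M'))) = ∏ v ∈ V, fv f a Y (v + t') := by
      apply sign_cancel (sg (t + M + M'))
      rw [mul_comm]; exact s2
    exact r1.trans r2

end Pool.Agent.LibChowla
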